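import Pool.Agent.L0h4.TW.Rec

/-!
# Project EV: the even discriminants of `X_0(49)`; the identities over the field with two elements

`n` : the parities of the primes, `m i j` : the symbols, `l`, `lb` : the symbols `χ₈` at the two primes
above two, `b`, `p` : two further indices.
-/

set_option autoImplicit false

namespace Pool.Agent.L0h1.EV

open Pool.Agent.Y698.SG Pool.Agent.L0h4.TW

variable {ι : Type} [DecidableEq ι]

/-- the transform -/
def Phi (c : ι → ZMod 2) (m : ι → ι → ZMod 2) (h : Finset ι → ZMod 2) (S : Finset ι) : ZMod 2 :=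
  ∑ A ∈ S.powerset, (∏ i ∈ S \ A, (c i + ∑ j ∈ A, m i j)) * h A

/-- the sum of the cofactors of the Laplacian with the weights `l` -/
noncomputable def kp (l : ι → ZMod 2) (m : ι → ι → ZMod 2) (S : Finset ι) : ZMod 2 :=
  ∑ i ∈ S, l i * gd (fun j => if j = i then 1 else 0) m S

/-- I1 -/
def S_I1 : Prop := ∀ (ι : Type) [DecidableEq ι] (l : ι → ZMod 2) (m : ι → ι → ZMod 2)
  (S : Finset ι), S.Nonempty → Phi 0 m (kp l m) S = ∑ i ∈ S, if S = {i} then l i else 0

/-- I2 -/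
def S_I2 : Prop := ∀ (ι : Type) [DecidableEq ι] (n l : ι → ZMod 2) (m : ι → ι → ZMod 2)
  (S : Finset ι) (p : ι), p ∉ S → S.Nonempty →
  (∀ i ∈ S, ∀ j ∈ S, i ≠ j → m i j + m j i = n i * n j) →
  (∀ i ∈ S, m i p = l i) → (∀ i ∈ S, m p i = l i + n p * n i) →
  Phi l m (fun A => gd n m (insert p A)) S =
    Phi 0 m (fun A => (1 + ∑ j ∈ A, (l j + n j)) * gd n m A) S

/-- I3 -/
def S_I3 : Prop := ∀ (ι : Type) [DecidableEq ι] (l lb mb : ι → ZMod 2) (m : ι → ι → ZMod 2)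
  (S : Finset ι) (b : ι), b ∉ S → l b = 1 →
  (∀ i ∈ S, m i b = mb i) → (∀ i ∈ S, m b i = lb i) →
  Phi mb m (fun A => kp l m (insert b A)) S +
    Phi 0 m (fun A => (∑ j ∈ A, lb j) * kp l m A) S = if S = ∅ then 1 else 0

/-- I4 -/
def S_I4 : Prop := ∀ (ι : Type) [DecidableEq ι] (n l lb : ι → ZMod 2) (m : ι → ι → ZMod 2)
  (S : Finset ι) (b p : ι), b ∉ S → p ∉ S → b ≠ p → l b = 1 → n p = n b →
  (∀ i ∈ S, ∀ j ∈ S, i ≠ j → m i j + m j i = n i * n j) →
  (∀ i ∈ S, m i b = lb i + n b * n i) → (∀ i ∈ S, m b i = lb i) →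
  (∀ i ∈ S, m i p = l i) → (∀ i ∈ S, m p i = l i + n p * n i) →
  m b p = 1 → m p b = 1 + n p * n b →
  Phi (fun i => l i + (lb i + n b * n i)) m (fun A => gd n m (insert p (insert b A))) S +
    Phi l m (fun A => (1 + ∑ j ∈ A, lb j) * gd n m (insert p A)) S =
  Phi (fun i => lb i + n b * n i) m
      (fun A => if ∑ j ∈ A, n j = n b + 1 then kp l m (insert b A) else 0) S +
    Phi 0 m (fun A => (∑ j ∈ A, lb j) * ((1 + ∑ j ∈ A, (l j + n j)) * gd n m A)) S

end Pool.Agent.L0h1.EV
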