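import Pool.Agent.L0h4.TW.Fac
import Pool.Agent.L0h23.ED.Stm
import Pool.Agent.L0h1.EV.Stm

/-!
# Project EV: the abstract induction (definitions and statements) and the final criteria

`𝔭 = (aR)`, `𝔭̄ = (bN)`, `bN = aR - 1 = 1 + aR ^ 2`. The functions `F` are functions on the torsion
points with the distribution relations; `F1` is the normalised twist by `χ₄` at `𝔭`, `F3` the one by
`χ₈` or `χ₋₈` at `𝔭`, and `F2` the function `X`.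
-/

set_option autoImplicit false
set_option linter.unusedSectionVars false

namespace Pool.Agent.L0h1.EV

open Pool.Agent.Y698 Pool.Agent.Y698.SG Pool.Agent.L0h4.TW Pool.Agent.L0h23.ED
open H667R3 Pool.Agent.W192.HK Pool.Agent.TH936.CM Pool.Agent.TH936.PU

/-- the normalised generator of `𝔭̄` -/
noncomputable def bN : RR := aR - 1

/-- `χ₈` at `𝔭` of an element congruent to one modulo `𝔭²` -/
noncomputable def sgl (x : RR) : ℂ := open Classical in if aR ^ 3 ∣ x - 1 then 1 else -1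

/-- the weighted sum of the values of `F` -/
noncomputable def Sv (F : ℂ → ℂ) (Ω : ℂ) (n : RR) (φ : RR → ℂ) : ℂ :=
  ∑ᶠ x : RR ⧸ sp n, φ x.out * F (Ω * x.out / (n : ℂ))

/-- a function with the distribution relations -/
structure DF (L : PeriodPair) (Ω : ℂ) (F : ℂ → ℂ) (ε : RR → ℂ) (s : ℂ) : Prop where
  per : ∀ z w : ℂ, w - z ∈ L.lattice → F w = F z
  par : ∀ z : ℂ, Tor L z → F (-z) = s * F z
  dist : ∀ (q : RR), N1 q → ∀ (_ : Fintype (RR ⧸ sp q)) (z : ℂ), Tor L z →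
    ∑ t : RR ⧸ sp q, F (z + Ω * t.out / q) = q * ε q * F (q * z)

/-- congruence of two functions at the points `z` of order prime to `𝔭` with `2 z ≠ 0` -/
def Con {Γ : Type} [LinearOrderedCommGroupWithZero Γ] (v : Valuation ℂ Γ) (Ω : ℂ)
    (F F' : ℂ → ℂ) : Prop :=
  ∀ n x : RR, ¬ aR ∣ n → IsCoprime x n → ¬ n ∣ 2 →
    v (F (Ω * x / (n : ℂ)) - F' (Ω * x / (n : ℂ))) < 1

/-- a quadratic character modulo `bN ^ k` -/
structure Chb (k : ℕ) (ψ : RR → ℂ) : Prop where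
  per : Pe (bN ^ k) ψ
  mul : ∀ x y : RR, ψ (x * y) = ψ x * ψ y
  zero : ∀ x : RR, bN ∣ x → ψ x = 0
  sgn : ∀ x : RR, ¬ bN ∣ x → ψ x = 1 ∨ ψ x = -1

/-- the weighted sum with `ψ` -/
noncomputable def Gb {ι : Type} (F : ℂ → ℂ) (Ω : ℂ) (k : ℕ) (ψ : RR → ℂ) (π : ι → RR)
    (S : Finset ι) : ℂ :=
  Sv F Ω (bN ^ k * ∏ i ∈ S, π i) (fun x => ψ x * ∏ i ∈ S, sy (π i) x)

/-- the weighted sum without `ψ` -/
noncomputable def Ga {ι : Type} (F : ℂ → ℂ) (Ω : ℂ) (π : ι → RR) (S : Finset ι) : ℂ :=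
  Sv F Ω (∏ i ∈ S, π i) (fun x => ∏ i ∈ S, sy (π i) x)

/-- **Theorem A** (`F1` : `χ₄` at `𝔭`; `F2` : `X`) -/
def S_A : Prop := ∀ (L : PeriodPair) (Ω : ℂ) (Γ : Type) [LinearOrderedCommGroupWithZero Γ]
  (v : Valuation ℂ Γ), LD L Ω → v al < 1 → ∀ F1 F2 : ℂ → ℂ,
  DF L Ω F1 (fun _ => 1) 1 → DF L Ω F2 (fun _ => 1) (-1) → Con v Ω F1 F2 → F1 0 = -bl / 2 →
  ∀ (k : ℕ) (ψ : RR → ℂ), 2 ≤ k → Chb k ψ →
  ∀ (ι : Type) [DecidableEq ι] (π : ι → RR) (b : ι) (l : ι → ZMod 2) (m : ι → ι → ZMod 2)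
    (S0 : Finset ι), FX S0 π → b ∉ S0 → l b = 1 → (∀ i ∈ S0, l i = lam (π i)) →
  (∀ i ∈ S0, ∀ j ∈ S0, i ≠ j → m i j = lg (sy (π j) (π i))) →
  (∀ i ∈ S0, m i b = lg (ψ (π i))) → (∀ i ∈ S0, m b i = lg (sy (π i) bN)) →
  ∀ S ⊆ S0, Rd v ((Gb F1 Ω k ψ π S - Gb F2 Ω k ψ π S) / 2 ^ (S.card + 1)) (kp l m (insert b S))

/-- parity: one of the two sums is zero -/
def S_P : Prop := ∀ (L : PeriodPair) (Ω : ℂ) (F : ℂ → ℂ) (ε : RR → ℂ) (s : ℂ), IsLat L RR Ω →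
  DF L Ω F ε s → ∀ (k : ℕ) (ψ : RR → ℂ), Chb k ψ → ∀ (ι : Type) [DecidableEq ι] (π : ι → RR)
  (S : Finset ι), FX S π → ψ (-1) * ∏ i ∈ S, sy (π i) (-1) = -s → Gb F Ω k ψ π S = 0

/-- **Theorem B** (`F3` : `χ₈` or `χ₋₈` at `𝔭`; `F2` : `X`) -/
def S_B : Prop := ∀ (L : PeriodPair) (Ω : ℂ) (Γ : Type) [LinearOrderedCommGroupWithZero Γ]
  (v : Valuation ℂ Γ), LD L Ω → v al < 1 → ∀ (F3 F2 : ℂ → ℂ) (s : ℂ),
  DF L Ω F3 sgl s → DF L Ω F2 (fun _ => 1) (-1) → Con v Ω F3 F2 →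
  ∀ (k : ℕ) (ψ : RR → ℂ), 2 ≤ k → Chb k ψ →
  ∀ (ι : Type) [DecidableEq ι] (π : ι → RR) (b p : ι) (n l lb : ι → ZMod 2) (m : ι → ι → ZMod 2)
    (S0 : Finset ι), FX S0 π → b ∉ S0 → p ∉ S0 → b ≠ p → l b = 1 → n p = n b → Rd v (F3 0) (n b) →
  (∀ i ∈ S0, n i = nt (π i)) → (∀ i ∈ S0, l i = lam (π i)) →
  (∀ i ∈ S0, lb i = lg (sy (π i) bN)) →
  (∀ i ∈ S0, ∀ j ∈ S0, i ≠ j → m i j = lg (sy (π j) (π i))) →
  (∀ i ∈ S0, ∀ j ∈ S0, i ≠ j → m i j + m j i = n i * n j) →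
  (∀ i ∈ S0, lg (ψ (π i)) = lb i + n b * n i) →
  (∀ i ∈ S0, m i b = lb i + n b * n i) → (∀ i ∈ S0, m b i = lb i) →
  (∀ i ∈ S0, m i p = l i) → (∀ i ∈ S0, m p i = l i + n p * n i) →
  m b p = 1 → m p b = 1 + n p * n b →
  (∀ A ⊆ S0, A.Nonempty → Rd v (Ga F2 Ω π A / 2 ^ A.card)
    ((1 + ∑ j ∈ A, (l j + n j)) * gd n m A)) →
  (∀ A ⊆ S0, Rd v (Gb F2 Ω k ψ π A / 2 ^ (A.card + 1))
    (if ∑ j ∈ A, n j = n b + 1 then kp l m (insert b A) else 0)) →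
  ∀ S ⊆ S0, Rd v (Gb F3 Ω k ψ π S / 2 ^ (S.card + 1)) (gd n m (insert p (insert b S)))

/-! ### the final criteria: indices `(2, false) = b`, `(2, true) = p`, `(7, false)` for `-√-7` -/

/-- the weights for `D ≡ 3 mod 4` -/
noncomputable def l3 (Q : Finset ℕ) (ϖ : ℕ → RR) (i : ℕ × Bool) : ZMod 2 :=
  if i = (2, false) then 1 else lam (pf7 Q ϖ i)

/-- the symbols for `D ≡ 3 mod 4` -/
noncomputable def m3 (Q : Finset ℕ) (ϖ : ℕ → RR) (i j : ℕ × Bool) : ZMod 2 :=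
  if i = (2, false) then lab (pf7 Q ϖ j) else if j = (2, false) then nt (pf7 Q ϖ i)
  else mm (pf7 Q ϖ) i j

/-- the condition for `D ≡ 3 mod 4` -/
def Crit3 (Q P : Finset ℕ) (ϖ : ℕ → RR) : Prop :=
  kp (l3 Q ϖ) (m3 Q ϖ) (insert (2, false) (insert (7, false) (ix Q P))) ≠ 0

/-- the types for `D = 2 M` (`nb = 1` if `M ≡ 3 mod 4`, else `0`) -/
noncomputable def nE (nb : ZMod 2) (Q : Finset ℕ) (ϖ : ℕ → RR) (i : ℕ × Bool) : ZMod 2 :=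
  if i.1 = 2 then nb else nt (pf7 Q ϖ i)

/-- the symbols for `D = 2 M` -/
noncomputable def mE (nb : ZMod 2) (Q : Finset ℕ) (ϖ : ℕ → RR) (i j : ℕ × Bool) : ZMod 2 :=
  if i = (2, false) then (if j = (2, true) then 1 else lab (pf7 Q ϖ j))
  else if i = (2, true) then (if j = (2, false) then 1 + nb
    else lam (pf7 Q ϖ j) + nb * nt (pf7 Q ϖ j))
  else if j = (2, false) then lab (pf7 Q ϖ i) + nb * nt (pf7 Q ϖ i)
  else if j = (2, true) then lam (pf7 Q ϖ i)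
  else mm (pf7 Q ϖ) i j

/-- the condition for `D = 2 M` -/
def CritE (nb : ZMod 2) (Q P : Finset ℕ) (ϖ : ℕ → RR) : Prop :=
  gd (nE nb Q ϖ) (mE nb Q ϖ)
    (insert (2, true) (insert (2, false) (insert (7, false) (ix Q P)))) ≠ 0

end Pool.Agent.L0h1.EV
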