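import Pool.Agent.L0h1.EV.Chr
import Pool.Agent.L0h23.ED.Unc
import Pool.Agent.L0h4.TE.Fin
import Pool.Agent.L0h4.TA.Dens
import Pool.Agent.L0h74.EV.DensB

/-!
# All the positive squarefree `D` prime to `7`
-/

set_option autoImplicit false
set_option maxHeartbeats 4000000
set_option linter.unusedSectionVars false

open scoped Classical

namespace Pool.Agent.L0h1.EV

open Pool.Agent.Y698 Pool.Agent.Y698.SG Pool.Agent.L0h4.TW Pool.Agent.L0h23.EV
open Pool.Agent.L0h75.EV Pool.Agent.L0h1.KD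
open Pool.Agent.L0h74.EV (QPw CritA qpw_of dens_allC)
open Pool.Agent.L0h4.TA (mD ns_iff exists_w)
open Pool.Agent.TH841.NF.D (Sha)
open WeierstrassCurve

/-- the twist by `D`, an integral model over `ℤ` -/
def TX (D : ℕ) : WeierstrassCurve ℚ :=
  if D % 4 = 1 then
    { a₁ := 1, a₂ := -(3 * (D : ℚ) + 1) / 4, a₃ := 0, a₄ := -2 * (D : ℚ) ^ 2, a₆ := -(D : ℚ) ^ 3 }
  else { a₁ := 0, a₂ := 0, a₃ := 0, a₄ := -35 * (D : ℚ) ^ 2, a₆ := -98 * (D : ℚ) ^ 3 }

lemma TX_one {D j : ℕ} (hj : D = 1 + 4 * j) : TX D = AX ℚ j := by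
  unfold TX AX EX
  rw [if_pos (by omega), hj]
  push_cast
  congr 1
  ring

lemma TX_other {D : ℕ} (h : D % 4 ≠ 1) : TX D = WX ℚ D := by
  unfold TX WX
  rw [if_neg h]

/-- the group of the points is finite and there is no element of order two in `Ш` -/
def TT (D : ℕ) : Prop := Finite (TX D).toAffine.Point ∧ ∀ x : Sha (TX D), x + x = 0 → x = 0

variable {Qf Pf : ℕ → Finset ℕ} {w : ℕ → RR}

theorem tt_iff (h : QPw Qf Pf w) {D : ℕ} (hsf : Squarefree D) (h7 : ¬ 7 ∣ D) :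
    TT D ↔ CritA Qf Pf w D := by
  have hD0 := hsf.ne_zero
  have hD4 : D % 4 ≠ 0 := by
    intro h4
    have h5 : 2 * 2 ∣ D := by omega
    exact absurd (hsf 2 h5) (by rw [Nat.isUnit_iff]; norm_num)
  rcases (show D % 4 = 1 ∨ D % 4 = 3 ∨ D % 4 = 2 by omega) with h4 | h4 | h4
  · obtain ⟨j, hj⟩ : ∃ j, D = 1 + 4 * j := ⟨D / 4, by omega⟩
    have hd := h.dt (D := D) (by omega) h7
    have hP := h.prod hsf
    have e : CritA Qf Pf w D ↔ NonSing (Qf D) (Pf D) w := by
      constructor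
      · rintro (h' | h' | h')
        · exact h'.2
        · omega
        · omega
      · exact fun h' => Or.inl ⟨h4, h'⟩
    rw [e]
    unfold TT
    rw [TX_one hj]
    have hA : Pool.Agent.L0h4.TA.Adm D := ⟨hsf, h4, h7⟩
    obtain ⟨-, -, -, c4, -⟩ := Pool.Agent.L0h4.TA.coreX hA hj
    constructor
    · rintro ⟨hf, hs⟩
      by_contra hns
      obtain ⟨x, hx0, hx2⟩ := Pool.Agent.L0h4.TC.conv hd hns (hP.symm.trans hj) hf
      exact hx0 (hs x hx2)
    · intro hns
      have hdet := (ns_iff hd hP.symm).1 hns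
      exact ⟨(c4 hdet).1, fun x hx => (c4 hdet).2 1 x (by rw [pow_one, two_nsmul]; exact hx)⟩
  · have hd := h.dt (D := D) (by omega) h7
    have hP := h.prod hsf
    have e : CritA Qf Pf w D ↔ Crit3 (Qf D) (Pf D) w := by
      constructor
      · rintro (h' | h' | h')
        · omega
        · exact h'.2
        · omega
      · exact fun h' => Or.inr (Or.inl ⟨h4, h'⟩)
    rw [e, Pool.Agent.L0h61.EV.crit3_iff hd hP h4]
    unfold TT
    rw [TX_other (by omega)]
    constructor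
    · rintro ⟨hf, hs⟩
      by_contra hns
      obtain ⟨x, hx0, hx2⟩ := Pool.Agent.L0h4.TE.conv3 hd hP h4 hns hf
      exact hx0 (hs x hx2)
    · intro hns
      have h5 := Pool.Agent.L0h23.ED.fin3Q hd hP h4 hns
      exact ⟨h5.1, fun x hx => h5.2 x 1 (by rw [pow_one, two_nsmul]; exact hx)⟩
  · have eD : D = 2 * (D / 2) := by omega
    have hsf2 : Squarefree (D / 2) := by
      have := hsf
      rw [eD] at this
      exact Squarefree.squarefree_of_dvd (Dvd.intro_left _ rfl) this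
    have h7' : ¬ 7 ∣ D / 2 := fun h' => h7 (by rw [eD]; exact Dvd.dvd.mul_left h' 2)
    have hd := h.dt (D := D / 2) (by omega) h7'
    have hP := h.prod hsf2
    have e : CritA Qf Pf w D ↔
        CritE (if D / 2 % 4 = 3 then 1 else 0) (Qf (D / 2)) (Pf (D / 2)) w := by
      constructor
      · rintro (h' | h' | h')
        · omega
        · omega
        · exact h'.2
      · exact fun h' => Or.inr (Or.inr ⟨by omega, h'⟩)
    rw [e, Pool.Agent.L0h61.EV.critE_iff hd hP]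
    unfold TT
    rw [TX_other (by omega)]
    constructor
    · rintro ⟨hf, hs⟩
      by_contra hns
      have key := Pool.Agent.L0h4.TE.convE hd hP hns
      rw [← eD] at key
      obtain ⟨x, hx0, hx2⟩ := key hf
      exact hx0 (hs x hx2)
    · intro hns
      have h5 := Pool.Agent.L0h23.ED.finEQ hd hP eD hns
      exact ⟨h5.1, fun x hx => h5.2 x 1 (by rw [pow_one, two_nsmul]; exact hx)⟩

/-- **the rank form** -/
theorem rank_all (h : QPw Qf Pf w) {D : ℕ} (hsf : Squarefree D) (h7 : ¬ 7 ∣ D)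
    (hC : CritA Qf Pf w D) :
    ∃ F : ℂ → ℂ, Differentiable ℂ F ∧
      (∀ s : ℂ, (3 : ℝ) / 2 < s.re → HasProd
        (tg (-35 * (D : ℤ) ^ 2) (-98 * (D : ℤ) ^ 3) s) (F s)) ∧
      F 1 ≠ 0 ∧
      Finite (WeierstrassCurve.Affine.Point (WeierstrassCurve.toAffine
      ({ a₁ := 0, a₂ := 0, a₃ := 0, a₄ := ((-35 * (D : ℤ) ^ 2 : ℤ) : ℚ),
         a₆ := ((-98 * (D : ℤ) ^ 3 : ℤ) : ℚ) } : WeierstrassCurve ℚ))) := by
  rcases hC with ⟨h4, hC⟩ | ⟨h4, hC⟩ | ⟨h4, hC⟩
  · have hd := h.dt (D := D) (by omega) h7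
    exact rank_form ⟨hsf, h4, h7⟩ ((ns_iff hd (h.prod hsf).symm).1 hC)
  · have hd := h.dt (D := D) (by omega) h7
    obtain ⟨F, h1, h2, h3⟩ := nz3 hd (h.prod hsf) h4
    have hns := (Pool.Agent.L0h61.EV.crit3_iff hd (h.prod hsf) h4).1 hC
    exact ⟨F, h1, lfunE ⟨hsf, Or.inr h4, h7⟩ h2, h3 hC,
      fin_WX (Pool.Agent.L0h23.ED.fin3Q hd (h.prod hsf) h4 hns).1⟩
  · have eD : D = 2 * (D / 2) := by omega
    have hsf2 : Squarefree (D / 2) := by
      have := hsf
      rw [eD] at this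
      exact Squarefree.squarefree_of_dvd (Dvd.intro_left _ rfl) this
    have hD4 : D % 4 ≠ 0 := by
      intro h4
      have h5 : 2 * 2 ∣ D := by omega
      exact absurd (hsf 2 h5) (by rw [Nat.isUnit_iff]; norm_num)
    have h7' : ¬ 7 ∣ D / 2 := fun h' => h7 (by rw [eD]; exact Dvd.dvd.mul_left h' 2)
    have hd := h.dt (D := D / 2) (by omega) h7'
    have hP := h.prod hsf2
    obtain ⟨F, h1, h2, h3⟩ := nzE hd hP eD
    have hns := (Pool.Agent.L0h61.EV.critE_iff hd hP).1 hC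
    exact ⟨F, h1, lfunE ⟨hsf, Or.inl (by omega), h7⟩ h2, h3 hC,
      fin_WX (Pool.Agent.L0h23.ED.finEQ hd hP eD hns).1⟩

/-- **the proportion** -/
theorem dens_TT :
    Filter.Tendsto (fun X : ℕ => (((Finset.Icc 1 X).filter fun D => Squarefree D ∧ ¬ 7 ∣ D ∧
      TT D).card : ℝ) /
      (((Finset.Icc 1 X).filter fun D => Squarefree D ∧ ¬ 7 ∣ D).card : ℝ)) Filter.atTop
      (nhds ((∏' i : ℕ, (1 - (1 / 2 : ℝ) ^ (2 * i + 1))) / 2)) := by
  obtain ⟨w, hw⟩ := exists_w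
  have h := qpw_of hw
  have h1 := dens_allC h
  unfold Pool.Agent.Y703.CQ.c2 at h1
  refine h1.congr fun X => congrArg₂ (fun a b : ℕ => (a : ℝ) / (b : ℝ)) ?_ rfl
  refine congrArg Finset.card (Finset.filter_congr fun D _ => ?_)
  exact and_congr_right fun hsf => and_congr_right fun h7 => (tt_iff h hsf h7).symm

end Pool.Agent.L0h1.EV
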