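import Pool.Agent.L0h1.EV.All
import Pool.Agent.L0h98.T7.Iso
import Pool.Agent.L0h98.T7.Tg

/-!
# The twists by `-7 D`
-/

set_option autoImplicit false
set_option maxHeartbeats 4000000
set_option linter.unusedSectionVars false

open scoped Classical

namespace Pool.Agent.L0h1.EV

open Pool.Agent.L0h1.KD Pool.Agent.L0h98.T7
open Pool.Agent.L0h74.EV (QPw CritA)
open Pool.Agent.Y698.SG Pool.Agent.L0h4.TW
open WeierstrassCurve

variable {Qf Pf : ℕ → Finset ℕ} {w : ℕ → Pool.Agent.Y698.RR}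

/-- the short equation -/
abbrev Sh (a b : ℤ) : WeierstrassCurve ℚ :=
  { a₁ := 0, a₂ := 0, a₃ := 0, a₄ := (a : ℚ), a₆ := (b : ℚ) }

lemma set_of_pt {a b : ℤ} (hD : 4 * a ^ 3 + 27 * b ^ 2 ≠ 0)
    (h : Finite (WeierstrassCurve.Affine.Point (WeierstrassCurve.toAffine (Sh a b)))) :
    {q : ℚ × ℚ | q.2 ^ 2 = q.1 ^ 3 + (a : ℚ) * q.1 + (b : ℚ)}.Finite := by
  have hns : ∀ x y : ℚ, (Sh a b).toAffine.Equation x y → (Sh a b).toAffine.Nonsingular x y := by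
    intro x y hxy
    refine (WeierstrassCurve.Affine.equation_iff_nonsingular_of_Δ_ne_zero ?_).1 hxy
    have e : (Sh a b).toAffine.Δ = -16 * ((4 * a ^ 3 + 27 * b ^ 2 : ℤ) : ℚ) := by
      unfold WeierstrassCurve.Δ WeierstrassCurve.b₈ WeierstrassCurve.b₆ WeierstrassCurve.b₄
        WeierstrassCurve.b₂
      push_cast
      ring
    rw [e]
    exact mul_ne_zero (by norm_num) (by exact_mod_cast hD)
  have heq : ∀ q : ℚ × ℚ, q ∈ {q : ℚ × ℚ | q.2 ^ 2 = q.1 ^ 3 + (a : ℚ) * q.1 + (b : ℚ)} →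
      (Sh a b).toAffine.Equation q.1 q.2 := by
    rintro ⟨x, y⟩ hq
    have hq' : y ^ 2 = x ^ 3 + (a : ℚ) * x + (b : ℚ) := hq
    rw [WeierstrassCurve.Affine.equation_iff]
    simp only
    linear_combination hq'
  rw [← Set.finite_coe_iff]
  refine Finite.of_injective (β := (Sh a b).toAffine.Point)
    (fun q => Affine.Point.some _ _ (hns _ _ (heq q.1 q.2))) ?_
  rintro ⟨⟨x, y⟩, hq⟩ ⟨⟨x', y'⟩, hq'⟩ h1
  simp only [Affine.Point.some.injEq] at h1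
  obtain ⟨rfl, rfl⟩ := h1
  rfl

lemma pt_of_set {a b : ℤ}
    (h : {q : ℚ × ℚ | q.2 ^ 2 = q.1 ^ 3 + (a : ℚ) * q.1 + (b : ℚ)}.Finite) :
    Finite (WeierstrassCurve.Affine.Point (WeierstrassCurve.toAffine (Sh a b))) := by
  have hf := h.to_subtype
  let g : WeierstrassCurve.Affine.Point (WeierstrassCurve.toAffine (Sh a b)) →
      Option {q : ℚ × ℚ | q.2 ^ 2 = q.1 ^ 3 + (a : ℚ) * q.1 + (b : ℚ)} := fun P =>
    match P with
    | .zero => none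
    | .some x y hxy => some ⟨(x, y), by
        have h1 := (WeierstrassCurve.Affine.equation_iff _ _).1 hxy.1
        simp only at h1
        show y ^ 2 = x ^ 3 + (a : ℚ) * x + (b : ℚ)
        linear_combination h1⟩
  refine Finite.of_injective g ?_
  intro P Q hPQ
  rcases P with _ | ⟨x, y, hxy⟩ <;> rcases Q with _ | ⟨x', y', hxy'⟩
  · rfl
  · simp [g] at hPQ
  · simp [g] at hPQ
  · simp only [g, Option.some.injEq, Subtype.mk.injEq, Prod.mk.injEq] at hPQ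
    obtain ⟨rfl, rfl⟩ := hPQ
    rfl

/-- **the rank form for the twists by `D` and by `-7 D`** -/
theorem rank_all7 (h : QPw Qf Pf w) {D : ℕ} (hsf : Squarefree D) (h7 : ¬ 7 ∣ D)
    (hC : CritA Qf Pf w D) {m : ℤ} (hm : m = D ∨ m = -7 * D) :
    ∃ F : ℂ → ℂ, Differentiable ℂ F ∧
      (∀ s : ℂ, (3 : ℝ) / 2 < s.re → HasProd (tg (-35 * m ^ 2) (-98 * m ^ 3) s) (F s)) ∧
      F 1 ≠ 0 ∧
      Finite (WeierstrassCurve.Affine.Point (WeierstrassCurve.toAffine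
      ({ a₁ := 0, a₂ := 0, a₃ := 0, a₄ := ((-35 * m ^ 2 : ℤ) : ℚ),
         a₆ := ((-98 * m ^ 3 : ℤ) : ℚ) } : WeierstrassCurve ℚ))) := by
  obtain ⟨F, h1, h2, h3, h4⟩ := rank_all h hsf h7 hC
  rcases hm with rfl | rfl
  · exact ⟨F, h1, h2, h3, h4⟩
  · refine ⟨F, h1, fun s hs => ?_, h3, ?_⟩
    · have h5 := h2 s hs
      refine (congrArg (fun g => HasProd g (F s)) (funext fun p => ?_)).mp h5
      exact (tg_seven (D : ℤ) s p).symm
    · have hD0 : (D : ℤ) ≠ 0 := by exact_mod_cast hsf.ne_zero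
      have h5 := set_of_pt (a := -35 * (D : ℤ) ^ 2) (b := -98 * (D : ℤ) ^ 3) (by
        have e : (4 * (-35 * (D : ℤ) ^ 2) ^ 3 + 27 * (-98 * (D : ℤ) ^ 3) ^ 2 : ℤ) =
          87808 * (D : ℤ) ^ 6 := by ring
        rw [e]
        exact mul_ne_zero (by norm_num) (pow_ne_zero _ hD0)) h4
      have h6 : (Em ((D : ℤ) : ℚ)).Finite := by
        refine h5.subset ?_
        rintro ⟨x, y⟩ hq
        have hq' : y ^ 2 = x ^ 3 - 35 * ((D : ℤ) : ℚ) ^ 2 * x - 98 * ((D : ℤ) : ℚ) ^ 3 := hq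
        show y ^ 2 = x ^ 3 + ((-35 * (D : ℤ) ^ 2 : ℤ) : ℚ) * x + ((-98 * (D : ℤ) ^ 3 : ℤ) : ℚ)
        push_cast
        push_cast at hq'
        linear_combination hq'
      have h7' := fin7 _ h6
      refine pt_of_set (h7'.subset ?_)
      rintro ⟨x, y⟩ hq
      have hq' : y ^ 2 = x ^ 3 + ((-35 * (-7 * (D : ℤ)) ^ 2 : ℤ) : ℚ) * x +
        ((-98 * (-7 * (D : ℤ)) ^ 3 : ℤ) : ℚ) := hq
      show y ^ 2 = x ^ 3 - 35 * (-7 * ((D : ℤ) : ℚ)) ^ 2 * x - 98 * (-7 * ((D : ℤ) : ℚ)) ^ 3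
      push_cast
      push_cast at hq'
      linear_combination hq'

end Pool.Agent.L0h1.EV
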