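import Pool.Agent.L0h1.KD.Rank
import Pool.Agent.L0h23.EV.Ser

/-!
# The rank form for the twists `y² = x³ - 35 D² x - 98 D³` of `X_0(49)`, `D ≡ 2, 3 mod 4`
-/

set_option autoImplicit false
set_option maxHeartbeats 4000000
set_option linter.unusedVariables false

open scoped Classical

namespace Pool.Agent.L0h1.EV

open Pool.Agent.Y698 Pool.Agent.Y698.SG Pool.Agent.L0h23.EV Pool.Agent.L0h1.KD
open WeierstrassCurve

/-- the incomplete `L`-series of the twist -/
theorem lfunE {D : ℕ} (h : AdmE D) {f : ℂ → ℂ}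
    (g2 : ∀ z : ℂ, 3 / 2 < z.re → HasProd (fun p : Nat.Primes =>
      (1 - bc p * (ch D (p : ℕ) * ((p : ℕ) : ℂ) ^ (-z)) +
      ec p * (ch D (p : ℕ) * ((p : ℕ) : ℂ) ^ (-z)) ^ 2)⁻¹) (f z)) :
    ∀ s : ℂ, (3 : ℝ) / 2 < s.re → HasProd
        (tg (-35 * (D : ℤ) ^ 2) (-98 * (D : ℤ) ^ 3) s) (f s) := by
  intro s hs
  have h1 := g2 s hs
  set n : ℤ := (D : ℤ) with hn
  have h4 : ∀ p : Nat.Primes, (1 - bc p * (ch D (p : ℕ) * ((p : ℕ) : ℂ) ^ (-s)) +
        ec p * (ch D (p : ℕ) * ((p : ℕ) : ℂ) ^ (-s)) ^ 2)⁻¹ =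
        tg (-35 * n ^ 2) (-98 * n ^ 3) s p := by
    intro P
    have hp : (P : ℕ).Prime := P.2
    revert hp
    generalize (P : ℕ) = p
    intro hp
    have hpi : Prime (p : ℤ) := Nat.prime_iff_prime_int.1 hp
    by_cases hb : p = 2 ∨ p = 7 ∨ p ∣ D
    · have hR : tg (-35 * n ^ 2) (-98 * n ^ 3) s p = 1 := by
        unfold tg
        refine if_neg ?_
        rintro ⟨_, h⟩
        apply h
        rw [disc_eq, dvd_neg]
        rcases hb with h4 | h4 | h4
        · subst h4
          exact Dvd.dvd.mul_right (dvd_pow (by norm_num) (by norm_num)) _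
        · subst h4
          exact Dvd.dvd.mul_left (Dvd.dvd.mul_right (dvd_pow (by norm_num) (by norm_num)) _) _
        · refine Dvd.dvd.mul_left (Dvd.dvd.mul_left (dvd_pow ?_ (by norm_num)) _) _
          rw [hn]
          exact_mod_cast h4
      rw [hR]
      rcases hb with h4 | h4 | h4
      · subst h4
        have : ch D 2 = 0 := if_pos rfl
        rw [this]
        simp
      · subst h4
        have hb7 : bc 7 = 0 := by
          have := bc_seven 0
          simpa using this
        have he7 : ec 7 = 0 := by unfold ec; exact if_pos rfl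
        rw [hb7, he7]
        simp
      · have h6 : ch D p = 0 := by
          unfold ch
          split_ifs with h2
          · rfl
          · have h3 : jacobiSym (D : ℤ) p = 0 := by
              have hne : NeZero p := ⟨hp.ne_zero⟩
              rw [jacobiSym.eq_zero_iff_not_coprime]
              intro hc
              have h4 : p ∣ Int.gcd (D : ℤ) (p : ℤ) := by
                rw [Int.gcd_natCast_natCast]
                exact Nat.dvd_gcd h4 dvd_rfl
              rw [hc] at h4
              exact hp.one_lt.ne' (Nat.dvd_one.1 h4)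
            rw [h3, Int.cast_zero]
        rw [h6]
        simp
    · push Not at hb
      obtain ⟨h2, h7, h3⟩ := hb
      have g2' : ¬ (p : ℤ) ∣ 2 := by
        intro h
        have : p ∣ 2 := by exact_mod_cast h
        exact h2 ((Nat.prime_dvd_prime_iff_eq hp Nat.prime_two).1 this)
      have g7' : ¬ (p : ℤ) ∣ 7 := by
        intro h
        have : p ∣ 7 := by exact_mod_cast h
        exact h7 ((Nat.prime_dvd_prime_iff_eq hp (by norm_num)).1 this)
      have h3' : ¬ (p : ℤ) ∣ n := by
        rw [hn]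
        exact_mod_cast h3
      have hcond : p.Prime ∧ ¬ ((p : ℤ) ∣ 2 * (-4 * (-35 * n ^ 2) ^ 3 - 27 * (-98 * n ^ 3) ^ 2)) := by
        refine ⟨hp, ?_⟩
        rw [disc_eq, dvd_neg]
        intro h
        rcases hpi.dvd_or_dvd h with h5 | h5
        · exact g2' (hpi.dvd_of_dvd_pow h5)
        · rcases hpi.dvd_or_dvd h5 with h6 | h6
          · exact g7' (hpi.dvd_of_dvd_pow h6)
          · exact h3' (hpi.dvd_of_dvd_pow h6)
      unfold tg
      rw [if_pos hcond]
      have := Fact.mk hp
      have ht := trace_E (ZMod p) hp h2 h7 (Nat.card_zmod p) h3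
      have hc' : Nat.card (AP (WX (ZMod p) D)) = Nat.card {q : ZMod p × ZMod p //
          q.2 ^ 2 = q.1 ^ 3 + ((-35 * n ^ 2 : ℤ) : ZMod p) * q.1 +
            ((-98 * n ^ 3 : ℤ) : ZMod p)} := by
        refine Nat.card_congr (Equiv.subtypeEquivRight fun q => ?_)
        rw [WeierstrassCurve.Affine.equation_iff]
        unfold WX
        simp only
        rw [hn]
        push_cast
        constructor
        · intro h
          linear_combination h
        · intro h
          linear_combination h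
      rw [← hc']
      rw [Nat.card_zmod] at ht
      have hec : ec p = (p : ℂ) := by unfold ec; exact if_neg h7
      have hch : ch D p = ((jacobiSym D p : ℤ) : ℂ) := if_neg h2
      have hsq : ch D p ^ 2 = 1 := by
        rw [hch, ← Int.cast_pow, jacobiSym.sq_one, Int.cast_one]
        rw [Int.gcd_natCast_natCast]
        exact ((hp.coprime_iff_not_dvd).2 h3).symm
      have h9 : (p : ℂ) ^ (1 - 2 * s) = (p : ℂ) * ((p : ℂ) ^ (-s)) ^ 2 := by
        have hp0 : (p : ℂ) ≠ 0 := by exact_mod_cast hp.ne_zero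
        rw [← Complex.cpow_nat_mul, sub_eq_add_neg, Complex.cpow_add _ _ hp0, Complex.cpow_one]
        congr 2
        push_cast
        ring
      have h10 : ((p : ℂ) - (Nat.card (AP (WX (ZMod p) D)) : ℂ)) = ch D p * bc p := by
        rw [hch]
        push_cast at ht
        exact ht
      rw [h9, h10, hec, mul_pow, hsq]
      congr 1
      ring
  have h5 : HasProd (tg (-35 * n ^ 2) (-98 * n ^ 3) s ∘ ((↑) : {p : ℕ | p.Prime} → ℕ))
      (f s) := by
    refine (congrArg (fun g => HasProd g (f s)) (funext fun p => ?_)).mp h1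
    exact h4 p
  refine (hasProd_subtype_iff_of_mulSupport_subset ?_).1 h5
  intro m hm
  rw [Function.mem_mulSupport] at hm
  by_contra h6
  apply hm
  unfold tg
  rw [if_neg]
  rintro ⟨h7, _⟩
  exact h6 h7

/-- the points of the short equation -/
theorem fin_WX {D : ℕ} (h : Finite (WX ℚ D).toAffine.Point) :
    Finite (WeierstrassCurve.Affine.Point (WeierstrassCurve.toAffine
      ({ a₁ := 0, a₂ := 0, a₃ := 0, a₄ := ((-35 * (D : ℤ) ^ 2 : ℤ) : ℚ),
         a₆ := ((-98 * (D : ℤ) ^ 3 : ℤ) : ℚ) } : WeierstrassCurve ℚ))) := by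
  have e : (⟨0, 0, 0, ((-35 * (D : ℤ) ^ 2 : ℤ) : ℚ), ((-98 * (D : ℤ) ^ 3 : ℤ) : ℚ)⟩ :
      WeierstrassCurve ℚ) = WX ℚ D := by
    unfold WX
    push_cast
    rfl
  rw [e]
  exact h

end Pool.Agent.L0h1.EV
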