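import Pool.Agent.L0h1.EV.FinU
import Pool.Agent.L0h1.EV.RankE
import Pool.Agent.Y698.SG.Uj

/-!
# The characters, and the central values are not zero
-/

set_option autoImplicit false
set_option maxHeartbeats 4000000
set_option linter.unusedSectionVars false

open scoped NumberTheorySymbols

namespace Pool.Agent.L0h1.EV

open Pool.Agent.Y698 Pool.Agent.Y698.SG Pool.Agent.L0h4.TW Pool.Agent.L0h23.EV
open Pool.Agent.L0h75.EV

variable {Q P : Finset ℕ} {ϖ : ℕ → RR}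

lemma prod_qch {S : Finset ℕ} (hS : ∀ q ∈ S, q ≠ 0) (m : ℤ) :
    ∏ q ∈ S, qch q m = ((jacobiSym m (∏ q ∈ S, q) : ℤ) : ℂ) := by
  classical
  induction S using Finset.induction_on with
  | empty => simp
  | insert l S hl ih =>
    have h1 : ∏ q ∈ S, q ≠ 0 := Finset.prod_ne_zero_iff.2 fun q hq => hS q (Finset.mem_insert_of_mem hq)
    rw [Finset.prod_insert hl, Finset.prod_insert hl,
      jacobiSym.mul_right' m (hS l (Finset.mem_insert_self _ _)) h1,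
      ih fun q hq => hS q (Finset.mem_insert_of_mem hq), Int.cast_mul]
    rfl

/-- odd `p` -/
lemma rec3 {D p : ℕ} (hD : D % 4 = 3) (hp : p % 2 = 1) :
    ((jacobiSym D p : ℤ) : ℂ) = c4 (p : ℤ) * ((jacobiSym p D : ℤ) : ℂ) := by
  unfold c4
  rw [Int.cast_natCast, ← Int.cast_mul]
  congr 1
  have hDo : Odd D := Nat.odd_iff.2 (by omega)
  rcases Nat.odd_mod_four_iff.1 hp with h | h
  · rw [ZMod.χ₄_nat_one_mod_four h, one_mul]
    exact (jacobiSym.quadratic_reciprocity_one_mod_four h hDo).symm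
  · rw [ZMod.χ₄_nat_three_mod_four h]
    rw [jacobiSym.quadratic_reciprocity_three_mod_four hD h]
    ring

lemma rec1 {D p : ℕ} (hD : D % 4 = 1) (hp : p % 2 = 1) :
    jacobiSym D p = jacobiSym p D :=
  jacobiSym.quadratic_reciprocity_one_mod_four hD (Nat.odd_iff.2 hp)

lemma c4_two : c4 ((2 : ℕ) : ℤ) = 0 := by
  unfold c4
  rw [show (((2 : ℕ) : ℤ) : ZMod 4) = 2 by norm_cast]
  rw [show ZMod.χ₄ 2 = 0 by decide]
  simp

lemma c8_two : c8 ((2 : ℕ) : ℤ) = 0 := by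
  unfold c8
  rw [show (((2 : ℕ) : ℤ) : ZMod 8) = 2 by norm_cast]
  rw [show ZMod.χ₈ 2 = 0 by decide]
  simp

lemma c8'_two : c8' ((2 : ℕ) : ℤ) = 0 := by
  unfold c8'
  rw [show (((2 : ℕ) : ℤ) : ZMod 8) = 2 by norm_cast]
  rw [show ZMod.χ₈' 2 = 0 by decide]
  simp

/-- `D ≡ 3 mod 4` -/
theorem ch3 (h : Dt Q P ϖ) {D : ℕ} (hD : D = ∏ q ∈ Q ∪ P, q) (hD4 : D % 4 = 3) {p : ℕ}
    (hp : p.Prime) : c4 (p : ℤ) * ∏ q ∈ Q ∪ P, qch q (p : ℤ) = ch D p := by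
  have hS : ∀ q ∈ Q ∪ P, q ≠ 0 := fun q hq => (h.od q hq).pr.ne_zero
  rcases eq_or_ne p 2 with h2 | h2
  · subst h2
    rw [c4_two, zero_mul]
    exact (if_pos rfl).symm
  · have hp1 : p % 2 = 1 := Nat.odd_iff.1 (hp.odd_of_ne_two h2)
    rw [prod_qch hS, ← hD, ← rec3 hD4 hp1]
    exact (if_neg h2).symm

/-- `D = 2 M`, `M ≡ 1 mod 4` -/
theorem chE1 (h : Dt Q P ϖ) {D M : ℕ} (hM : M = ∏ q ∈ Q ∪ P, q) (hD : D = 2 * M)
    (hM4 : M % 4 = 1) {p : ℕ} (hp : p.Prime) :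
    c8 (p : ℤ) * ∏ q ∈ Q ∪ P, qch q (p : ℤ) = ch D p := by
  have hS : ∀ q ∈ Q ∪ P, q ≠ 0 := fun q hq => (h.od q hq).pr.ne_zero
  rcases eq_or_ne p 2 with h2 | h2
  · subst h2
    rw [c8_two, zero_mul]
    exact (if_pos rfl).symm
  · have hp1 : p % 2 = 1 := Nat.odd_iff.1 (hp.odd_of_ne_two h2)
    have hpo : Odd p := Nat.odd_iff.2 hp1
    rw [prod_qch hS, ← hM]
    have e : ch D p = ((jacobiSym D p : ℤ) : ℂ) := if_neg h2
    rw [e, hD]
    push_cast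
    rw [jacobiSym.mul_left, jacobiSym.at_two hpo, rec1 hM4 hp1]
    unfold c8
    push_cast
    rfl

/-- `D = 2 M`, `M ≡ 3 mod 4` -/
theorem chE3 (h : Dt Q P ϖ) {D M : ℕ} (hM : M = ∏ q ∈ Q ∪ P, q) (hD : D = 2 * M)
    (hM4 : M % 4 = 3) {p : ℕ} (hp : p.Prime) :
    c8' (p : ℤ) * ∏ q ∈ Q ∪ P, qch q (p : ℤ) = ch D p := by
  have hS : ∀ q ∈ Q ∪ P, q ≠ 0 := fun q hq => (h.od q hq).pr.ne_zero
  rcases eq_or_ne p 2 with h2 | h2
  · subst h2
    rw [c8'_two, zero_mul]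
    exact (if_pos rfl).symm
  · have hp1 : p % 2 = 1 := Nat.odd_iff.1 (hp.odd_of_ne_two h2)
    have hpo : Odd p := Nat.odd_iff.2 hp1
    rw [prod_qch hS, ← hM]
    have e : ch D p = ((jacobiSym D p : ℤ) : ℂ) := if_neg h2
    have e1 := jacobiSym.at_neg_two hpo
    have e2 : jacobiSym (-2) p = jacobiSym (-1) p * jacobiSym 2 p := by
      rw [← jacobiSym.mul_left]
      norm_num
    rw [e2, jacobiSym.at_neg_one hpo] at e1
    have e3 := rec3 hM4 hp1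
    rw [e, hD]
    push_cast
    rw [jacobiSym.mul_left]
    push_cast
    rw [e3]
    unfold c8' c4
    have e4 : (((ZMod.χ₈' ((p : ℤ) : ZMod 8) : ℤ)) : ℂ) =
        ((ZMod.χ₄ ((p : ℤ) : ZMod 4) : ℤ) : ℂ) * ((jacobiSym 2 p : ℤ) : ℂ) := by
      rw [← Int.cast_mul]
      congr 1
      push_cast
      exact e1.symm
    rw [e4]
    ring

/-- there is a valuation over `al` -/
lemma exists_val_al (h : ∀ (Γ : Type) [LinearOrderedCommGroupWithZero Γ] (v : Valuation ℂ Γ),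
    ¬ v al < 1) : False := by
  refine exists_val2 fun Γ _ v hv => ?_
  have e : al * bl = 2 := al_mul_bl
  have h1 : v al * v bl = v 2 := by rw [← map_mul, e]
  rcases lt_or_ge (v al) 1 with h2 | h2
  · exact h Γ v h2
  · have h3 : v bl < 1 := by
      by_contra h4
      rw [not_lt] at h4
      rw [← h1] at hv
      exact absurd hv (not_lt.2 (one_le_mul h2 h4))
    refine h Γ (v.comap (starRingEnd ℂ)) ?_
    rw [Valuation.comap_apply, conj_al]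
    exact h3

/-- **the central value is not zero, `D ≡ 3 mod 4`** -/
theorem nz3 (h : Dt Q P ϖ) {D : ℕ} (hD : D = ∏ q ∈ Q ∪ P, q) (hD4 : D % 4 = 3) :
    ∃ F : ℂ → ℂ, Differentiable ℂ F ∧
    (∀ z : ℂ, 3 / 2 < z.re → HasProd (fun p : Nat.Primes =>
      (1 - bc p * (ch D (p : ℕ) * ((p : ℕ) : ℂ) ^ (-z)) +
      ec p * (ch D (p : ℕ) * ((p : ℕ) : ℂ) ^ (-z)) ^ 2)⁻¹) (F z)) ∧ (Crit3 Q P ϖ → F 1 ≠ 0) := by
  obtain ⟨F, h1, h2, h3⟩ := val3 h
  refine ⟨F, h1, fun z hz => ?_, fun hc h0 => ?_⟩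
  · refine (congrArg (fun g => HasProd g (F z)) (funext fun p : Nat.Primes => ?_)).mp (h2 z hz)
    rw [ch3 h hD hD4 p.2]
  · obtain ⟨L, Ω, hL⟩ := exists_LD
    refine exists_val_al fun Γ _ v hv => ?_
    have h4 := (h3 Γ v L Ω hL hv).1 hc
    rw [h0, map_zero, zero_div, map_zero] at h4
    exact pow_ne_zero _ ((v.ne_zero_iff).2 two_ne_zero) h4.symm

/-- **the central value is not zero, `D = 2 M`** -/
theorem nzE (h : Dt Q P ϖ) {D M : ℕ} (hM : M = ∏ q ∈ Q ∪ P, q) (hD : D = 2 * M) :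
    ∃ F : ℂ → ℂ, Differentiable ℂ F ∧
    (∀ z : ℂ, 3 / 2 < z.re → HasProd (fun p : Nat.Primes =>
      (1 - bc p * (ch D (p : ℕ) * ((p : ℕ) : ℂ) ^ (-z)) +
      ec p * (ch D (p : ℕ) * ((p : ℕ) : ℂ) ^ (-z)) ^ 2)⁻¹) (F z)) ∧
      (CritE (if M % 4 = 3 then 1 else 0) Q P ϖ → F 1 ≠ 0) := by
  have hM2 : M % 2 = 1 := by
    rw [hM]
    have hod : ∀ q ∈ Q ∪ P, q % 2 = 1 := fun q hq => (h.od q hq).odd
    exact Nat.odd_iff.1 (Finset.prod_induction (fun q : ℕ => q) (fun n => Odd n)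
      (fun a b ha hb => ha.mul hb) odd_one fun q hq => Nat.odd_iff.2 (hod q hq))
  have hr : ∀ (Γ : Type) [LinearOrderedCommGroupWithZero Γ] (v : Valuation ℂ Γ),
      v ((Real.sqrt 2 : ℝ) : ℂ) ^ 2 = v 2 := by
    intro Γ _ v
    rw [← map_pow]
    congr 1
    rw [← Complex.ofReal_pow, Real.sq_sqrt (by norm_num)]
    norm_num
  rcases (show M % 4 = 1 ∨ M % 4 = 3 by omega) with h4 | h4
  · rw [if_neg (by omega)]
    obtain ⟨F, h1, h2, h3⟩ := valE1 h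
    refine ⟨F, h1, fun z hz => ?_, fun hc h0 => ?_⟩
    · refine (congrArg (fun g => HasProd g (F z)) (funext fun p : Nat.Primes => ?_)).mp (h2 z hz)
      rw [chE1 h hM hD h4 p.2]
    · obtain ⟨L, Ω, hL⟩ := exists_LD
      refine exists_val_al fun Γ _ v hv => ?_
      have h4 := (h3 Γ v L Ω _ hL hv (hr Γ v)).1 hc
      rw [h0, map_zero, zero_div, map_zero, zero_mul] at h4
      exact pow_ne_zero _ ((v.ne_zero_iff).2 two_ne_zero) h4.symm
  · rw [if_pos h4]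
    obtain ⟨F, h1, h2, h3⟩ := valE3 h
    refine ⟨F, h1, fun z hz => ?_, fun hc h0 => ?_⟩
    · refine (congrArg (fun g => HasProd g (F z)) (funext fun p : Nat.Primes => ?_)).mp (h2 z hz)
      rw [chE3 h hM hD h4 p.2]
    · obtain ⟨L, Ω, hL⟩ := exists_LD
      refine exists_val_al fun Γ _ v hv => ?_
      have h4 := (h3 Γ v L Ω _ hL hv (hr Γ v)).1 hc
      rw [h0, map_zero, zero_div, map_zero, zero_mul] at h4
      exact pow_ne_zero _ ((v.ne_zero_iff).2 two_ne_zero) h4.symm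

end Pool.Agent.L0h1.EV
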