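import Pool.Agent.L0h1.EV.Gy
import Pool.Agent.L0h1.EV.Abs

/-!
# Project EV: the twisted Eisenstein numbers: distribution relations, values at zero, congruences
-/

set_option autoImplicit false
set_option maxHeartbeats 4000000
set_option linter.unusedSectionVars false

open Filter
open scoped Topology PeriodPair

namespace Pool.Agent.L0h1.EV

open Pool.Agent.Y698 Pool.Agent.Y698.SG Pool.Agent.L0h4.TW
open H667R3 Pool.Agent.W192.HK Pool.Agent.TH936.CM Pool.Agent.TH936.PU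

variable {L : PeriodPair} {Ω : ℂ} {Γ : Type} [LinearOrderedCommGroupWithZero Γ]
  {v : Valuation ℂ Γ}

/-- the value at zero -/
lemma Gm8_zero (h : LD L Ω) :
    (Gm8 Ω 0 / taum L Ω) ^ 2 * ((3 * bl + 2) * (3 * bl - 4) ^ 2) = (1 - 2 * bl) * bl ^ 4 := by
  have hL := h.lat
  have g8 := G8_zero h
  rw [G8_XE hL, zero_add, zero_add] at g8
  have n1 : al * t3 Ω ∉ L.lattice := by
    rw [al_t3]
    exact t2_notMem hL
  have s1 := XE_sq h n1 (al_tor (al3_t3 hL))
  rw [al_t3, Xx_t2 h] at s1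
  have hG : Gm8 Ω 0 = 4 * XE Ω (t3 Ω) := by
    rw [Gm8_XE hL, zero_add, zero_add]
    linear_combination -g8
  have hdl := dl_sq h
  have hd0 := dl_ne h
  have hP := P0_ne
  have hbl := bl_ne
  have ht := dwp_t2_ne h
  have hal := al_ne
  have o2 := h.ode (t2_notMem hL)
  rw [Xx_t2 h] at o2
  have o3 : ℘'[L] (t2 Ω) ^ 2 = -(7 * (3 * bl + 2)) / 4 := by
    rw [o2]
    unfold bl
    linear_combination (1 / 4 : ℂ) * (1 - 2 * al) * al_sq
  have s2 : XE Ω (t3 Ω) ^ 2 = (4 - al) / (4 * bl ^ 2) := by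
    rw [eq_div_iff (mul_ne_zero (by norm_num) (pow_ne_zero _ hbl))]
    unfold bl at s1 ⊢
    linear_combination 4 * s1
  have e : (Gm8 Ω 0 / taum L Ω) ^ 2 = 16 * XE Ω (t3 Ω) ^ 2 * (bl ^ 8 * dl L Ω ^ 2) /
      (256 * ℘'[L] (t2 Ω) ^ 2 * P0 ^ 2) := by
    rw [hG]
    unfold taum
    field_simp
    ring
  have hb4 := bl4_ne
  have hb3 := bl3_ne
  rw [e, s2, hdl, o3]
  unfold P0
  have hab := al_mul_bl
  have e4 : -(4 - al) * al * bl ^ 2 = 4 * (1 - 2 * bl) := by
    linear_combination (-(4 - al) * bl + 2) * hab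
  generalize 3 * bl + 2 = A at *
  generalize 3 * bl - 4 = B at *
  have e5 : 16 * ((4 - al) / (4 * bl ^ 2)) * (bl ^ 8 * (7 * al)) /
      (256 * (-(7 * A) / 4) * (B / 2) ^ 2) * (A * B ^ 2) = -(4 - al) * al * bl ^ 2 * bl ^ 4 / 4 := by
    field_simp
    ring
  rw [e5, e4]
  ring

lemma cg_of_sq (hv : v al < 1) {a : ℂ} (h : Cg v (a ^ 2) 1) : Cg v a 1 := by
  have h1 : v (a ^ 2) = 1 := h.unit (map_one v)
  rw [map_pow] at h1
  have h2 := gsq h1
  unfold Cg at h ⊢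
  have e : (a - 1) ^ 2 = (a ^ 2 - 1) - 2 * (a - 1) := by ring
  have h3 : v ((a - 1) ^ 2) < 1 := by
    rw [e]
    refine v_sub_lt h (v_lt_mul (v_two_lt hv) ?_)
    exact v_sub_le h2.le (by rw [map_one])
  rw [map_pow] at h3
  by_contra hc
  push Not at hc
  exact absurd h3 (not_lt.2 (one_le_pow₀ hc))

/-- the value of the twist by `χ₋₈` at zero modulo the prime above two -/
lemma rd_Gm8 (h : LD L Ω) (hv : v al < 1) : Rd v (Gm8 Ω 0 / taum L Ω) 1 := by
  rw [Rd.one_iff]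
  apply cg_of_sq hv
  have c1 : v (1 : ℂ) ≤ 1 := by rw [map_one]
  have hb1 : Cg v bl 1 := cg_of (c := -al) (by unfold bl; ring) (by rwa [Valuation.map_neg])
  have h1 : Cg v (3 * bl + 2) 1 := by
    refine cg_of (c := 2 * (bl + 1) - al) (by unfold bl; ring) ?_
    exact v_sub_lt (v_lt_mul (v_two_lt hv) (v_add_le (v_bl hv).le c1)) hv
  have h2 : Cg v ((3 * bl - 4) ^ 2) 1 := by
    have : Cg v (3 * bl - 4) 1 := by
      refine cg_of (c := 2 * (bl - 2) - al) (by unfold bl; ring) ?_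
      exact v_sub_lt (v_lt_mul (v_two_lt hv) (v_sub_le (v_bl hv).le (v_two_lt hv).le)) hv
    simpa using this.pow c1 2
  have h3 : Cg v ((1 - 2 * bl) * bl ^ 4) 1 := by
    have h4 : Cg v (1 - 2 * bl) 1 := by
      refine cg_of (c := 2 * (-bl)) (by ring) (v_lt_mul (v_two_lt hv) ?_)
      rw [Valuation.map_neg]
      exact (v_bl hv).le
    have h5 := hb1.pow c1 4
    rw [one_pow] at h5
    have := h4.mul h5 c1 c1
    rwa [one_mul] at this
  have h4 : Cg v ((3 * bl + 2) * (3 * bl - 4) ^ 2) 1 := by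
    have := h1.mul h2 c1 c1
    rwa [one_mul] at this
  have h0 := Gm8_zero h
  have hne : (3 * bl + 2) * (3 * bl - 4) ^ 2 ≠ 0 := mul_ne_zero bl3_ne (pow_ne_zero _ bl4_ne)
  rw [← eq_div_iff hne] at h0
  rw [h0]
  have := h3.div h4 c1 (map_one v)
  rwa [div_one] at this

/-! ### points of order prime to the prime above two -/

lemma v_of_not (hv : v al < 1) {n : RR} (hn : ¬ aR ∣ n) : v (n : ℂ) = 1 := by
  have h1 : ∃ w : RR, n = 1 + aR * w := by
    have h2 : ∀ m : ℤ, ∃ w : RR, (m : RR) = aR * w ∨ (m : RR) = 1 + aR * w := by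
      intro m
      rcases Int.even_or_odd' m with ⟨k, hk | hk⟩
      · refine ⟨bR * k, Or.inl ?_⟩
        rw [hk, ← mul_assoc, aR_mul_bR]
        push_cast
        ring
      · refine ⟨bR * k, Or.inr ?_⟩
        rw [hk, ← mul_assoc, aR_mul_bR]
        push_cast
        ring
    have h3 : n = (cX n : RR) + (cY n : RR) * aR := by
      apply Subtype.ext
      push_cast
      rw [aR_coe]
      exact co n
    obtain ⟨w, hw | hw⟩ := h2 (cX n)
    · exfalso
      apply hn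
      rw [h3, hw]
      exact ⟨w + (cY n : RR), by ring⟩
    · exact ⟨w + (cY n : RR), by linear_combination h3 + hw⟩
  obtain ⟨w, rfl⟩ := h1
  push_cast
  rw [aR_coe, Valuation.map_add_eq_of_lt_left v, map_one]
  rw [map_one, map_mul]
  exact mul_lt_one_of_lt_of_le hv (v_RR hv w)

lemma tb_of (hL : IsLat L RR Ω) (hv : v al < 1) {n x : RR} (hn : ¬ aR ∣ n) (hc : IsCoprime x n)
    (h2 : ¬ n ∣ 2) : Tb v L (Ω * x / (n : ℂ)) ∧ 2 * (Ω * x / (n : ℂ)) ∉ L.lattice := by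
  have hn0 : n ≠ 0 := by
    rintro rfl
    exact hn (dvd_zero _)
  have hn0' := coe_ne hn0
  have k2 : 2 * (Ω * x / (n : ℂ)) ∉ L.lattice := by
    intro h1
    have e : 2 * (Ω * x / (n : ℂ)) = Ω * ((2 * x : RR) : ℂ) / (n : ℂ) := by
      push_cast
      rw [two_coe]
      ring
    rw [e, div_mem_iff hL hn0, Ideal.mem_span_singleton] at h1
    exact h2 (hc.symm.dvd_of_dvd_mul_right h1)
  refine ⟨⟨fun h1 => k2 ?_, n, v_of_not hv hn, ?_⟩, k2⟩
  · have := add_mem h1 h1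
    rwa [← two_mul] at this
  · have e : (n : ℂ) * (Ω * x / n) = Ω * x := by field_simp
    rw [e]
    exact hL.mem_mul x

/-- the normalised twist by `χ₄` -/
noncomputable def F4 (L : PeriodPair) (Ω z : ℂ) : ℂ := G4 Ω z / tau4 L Ω
/-- the normalised twist by `χ₈` -/
noncomputable def F8 (L : PeriodPair) (Ω z : ℂ) : ℂ := G8 Ω z / tau8 L Ω
/-- the normalised twist by `χ₋₈` -/
noncomputable def Fm (L : PeriodPair) (Ω z : ℂ) : ℂ := Gm8 Ω z / taum L Ω

theorem con_F4 (h : LD L Ω) (hv : v al < 1) : Con v Ω (F4 L Ω) (XE Ω) := by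
  intro n x hn hc h2
  obtain ⟨hz, -⟩ := tb_of h.lat hv hn hc h2
  exact (cg_G4 h hv hz).trans (cg_XE h hv hz).symm

theorem con_F8 (h : LD L Ω) (hv : v al < 1) : Con v Ω (F8 L Ω) (XE Ω) := by
  intro n x hn hc h2
  obtain ⟨hz, -⟩ := tb_of h.lat hv hn hc h2
  exact (cg_G8 h hv hz).trans (cg_XE h hv hz).symm

theorem con_Fm (h : LD L Ω) (hv : v al < 1) : Con v Ω (Fm L Ω) (XE Ω) := by
  intro n x hn hc h2
  obtain ⟨hz, hz2⟩ := tb_of h.lat hv hn hc h2
  exact (cg_Gm8 h hv hz hz2).trans (cg_XE h hv hz).symm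

/-! ### distribution relations -/

lemma n1_ne {q : RR} (h : N1 q) : q ≠ 0 := by
  obtain ⟨u, rfl⟩ := h
  intro h0
  apply aR_nu
  refine IsUnit.of_mul_eq_one (-(aR * u)) ?_
  linear_combination -h0

/-- the distribution relation with a translation -/
lemma dist_c (hL : IsLat L RR Ω) {q : RR} (hq : q ≠ 0) (i : Fintype (RR ⧸ sp q)) {z c c' : ℂ}
    (hz : Tor L z) (hc : Tor L c) (h : q * c - c' ∈ L.lattice) :
    ∑ t : RR ⧸ sp q, Ev Ω (z + Ω * t.out / q + c) = q * Ev Ω (q * z + c') := by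
  have h1 := Ev_dist hL hq (hz.add hL hc)
  have e : ∀ t : RR ⧸ sp q, z + c + Ω * t.out / q = z + Ω * t.out / q + c := fun t => by ring
  simp only [e] at h1
  rw [h1, Ev_per hL (z := q * z + c') (w := q * (z + c)) (by
    convert h using 1
    ring)]

lemma n1_t2 (hL : IsLat L RR Ω) {q : RR} (h : N1 q) : (q : ℂ) * t2 Ω - t2 Ω ∈ L.lattice := by
  obtain ⟨u, rfl⟩ := h
  have e : ((1 + aR ^ 2 * u : RR) : ℂ) * t2 Ω - t2 Ω = Ω * u := by
    unfold t2
    have := al_ne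
    push_cast
    rw [aR_coe]
    field_simp
    ring
  rw [e]
  exact hL.mem_mul u

lemma n1_tA (hL : IsLat L RR Ω) {q : RR} (h : N1 q) : (q : ℂ) * tA Ω - tA Ω ∈ L.lattice := by
  obtain ⟨u, rfl⟩ := h
  have e : ((1 + aR ^ 2 * u : RR) : ℂ) * tA Ω - tA Ω = Ω * ((aR * u : RR) : ℂ) := by
    unfold tA
    have := al_ne
    push_cast
    rw [aR_coe]
    field_simp
    ring
  rw [e]
  exact hL.mem_mul _

lemma n1_t3 (hL : IsLat L RR Ω) {q : RR} (h : N1 q) :
    (sgl q = 1 ∧ (q : ℂ) * t3 Ω - t3 Ω ∈ L.lattice) ∨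
      (sgl q = -1 ∧ (q : ℂ) * t3 Ω - -(3 * t3 Ω) ∈ L.lattice) := by
  classical
  obtain ⟨u, rfl⟩ := h
  have hal := al_ne
  unfold sgl
  by_cases hd : aR ^ 3 ∣ 1 + aR ^ 2 * u - 1
  · left
    refine ⟨if_pos hd, ?_⟩
    obtain ⟨w, hw⟩ := hd
    have e : ((1 + aR ^ 2 * u : RR) : ℂ) * t3 Ω - t3 Ω = Ω * w := by
      have h1 : ((1 + aR ^ 2 * u - 1 : RR) : ℂ) = ((aR ^ 3 * w : RR) : ℂ) := by rw [hw]
      push_cast at h1 ⊢
      rw [aR_coe] at h1 ⊢
      unfold t3
      field_simp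
      linear_combination Ω * h1
    rw [e]
    exact hL.mem_mul w
  · right
    refine ⟨if_neg hd, ?_⟩
    have hu : ¬ aR ∣ u := by
      rintro ⟨w, rfl⟩
      exact hd ⟨w, by ring⟩
    obtain ⟨w, rfl⟩ : ∃ w : RR, u = 1 + aR * w := by
      have h2 : ∀ m : ℤ, ∃ w : RR, (m : RR) = aR * w ∨ (m : RR) = 1 + aR * w := by
        intro m
        rcases Int.even_or_odd' m with ⟨k, hk | hk⟩
        · refine ⟨bR * k, Or.inl ?_⟩
          rw [hk, ← mul_assoc, aR_mul_bR]
          push_cast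
          ring
        · refine ⟨bR * k, Or.inr ?_⟩
          rw [hk, ← mul_assoc, aR_mul_bR]
          push_cast
          ring
      have h3 : u = (cX u : RR) + (cY u : RR) * aR := by
        apply Subtype.ext
        push_cast
        rw [aR_coe]
        exact co u
      obtain ⟨w, hw | hw⟩ := h2 (cX u)
      · exfalso
        apply hu
        rw [h3, hw]
        exact ⟨w + (cY u : RR), by ring⟩
      · exact ⟨w + (cY u : RR), by linear_combination h3 + hw⟩
    have e : ((1 + aR ^ 2 * (1 + aR * w) : RR) : ℂ) * t3 Ω - -(3 * t3 Ω) =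
        4 * t3 Ω - tA Ω + 2 * tA Ω + Ω * w := by
      unfold t3 tA
      push_cast
      rw [aR_coe]
      field_simp
      ring
    rw [e]
    exact add_mem (add_mem (four_t3 hL) (two_tA hL)) (hL.mem_mul w)

/-- the function `X` -/
theorem df_XE (hL : IsLat L RR Ω) : DF L Ω (XE Ω) (fun _ => 1) (-1) where
  per z w h := by
    unfold XE
    rw [Ev_per hL h, Ev_per hL (z := z + tA Ω) (w := w + tA Ω) (by
      convert h using 1
      ring)]
  par z hz := by
    unfold XE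
    rw [Ev_neg hL hz]
    have e : -z + tA Ω = -(z - tA Ω) := by ring
    rw [e, Ev_neg hL (hz.sub hL (al_tor (al1_tA hL))), Ev_per hL (z := z + tA Ω) (w := z - tA Ω) (by
      have := neg_mem (two_tA hL)
      convert this using 1
      ring)]
    ring
  dist q hq i z hz := by
    unfold XE
    rw [← Finset.sum_div, Finset.sum_sub_distrib, Ev_dist hL (n1_ne hq) hz,
      dist_c hL (n1_ne hq) i hz (al_tor (al1_tA hL)) (n1_tA hL hq)]
    ring

/-- the twist by `χ₄` -/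
theorem df_F4 (hL : IsLat L RR Ω) : DF L Ω (F4 L Ω) (fun _ => 1) 1 where
  per z w h := by
    unfold F4 G4
    rw [Ev_per hL (z := z + t2 Ω) (w := w + t2 Ω) (by convert h using 1; ring),
      Ev_per hL (z := z - t2 Ω) (w := w - t2 Ω) (by convert h using 1; ring)]
  par z hz := by
    have ht := al_tor (al2_t2 hL)
    unfold F4 G4
    have e1 : -z + t2 Ω = -(z - t2 Ω) := by ring
    have e2 : -z - t2 Ω = -(z + t2 Ω) := by ring
    rw [e1, e2, Ev_neg hL (hz.sub hL ht), Ev_neg hL (hz.add hL ht)]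
    ring
  dist q hq i z hz := by
    have ht := al_tor (al2_t2 hL)
    have hm : (q : ℂ) * -t2 Ω - -t2 Ω ∈ L.lattice := by
      have := neg_mem (n1_t2 hL hq)
      convert this using 1
      ring
    unfold F4 G4
    simp only [sub_eq_add_neg]
    rw [← Finset.sum_div, Finset.sum_add_distrib, Finset.sum_neg_distrib,
      dist_c hL (n1_ne hq) i hz ht (n1_t2 hL hq), dist_c hL (n1_ne hq) i hz ht.neg hm]
    ring

lemma par8 (hL : IsLat L RR Ω) {z : ℂ} (hz : Tor L z) (t : ℂ) (ht : Tor L t) :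
    Ev Ω (-z + t) = -Ev Ω (z - t) ∧ Ev Ω (-z - t) = -Ev Ω (z + t) := by
  have e1 : -z + t = -(z - t) := by ring
  have e2 : -z - t = -(z + t) := by ring
  rw [e1, e2, Ev_neg hL (hz.sub hL ht), Ev_neg hL (hz.add hL ht)]
  exact ⟨rfl, rfl⟩

/-- the four shifted sums -/
lemma dist8 (hL : IsLat L RR Ω) {q : RR} (hq : N1 q) (i : Fintype (RR ⧸ sp q)) {z : ℂ}
    (hz : Tor L z) :
    (sgl q = 1 ∧
      ∑ t : RR ⧸ sp q, Ev Ω (z + Ω * t.out / q + t3 Ω) = q * Ev Ω (q * z + t3 Ω) ∧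
      ∑ t : RR ⧸ sp q, Ev Ω (z + Ω * t.out / q - t3 Ω) = q * Ev Ω (q * z - t3 Ω) ∧
      ∑ t : RR ⧸ sp q, Ev Ω (z + Ω * t.out / q + 3 * t3 Ω) = q * Ev Ω (q * z + 3 * t3 Ω) ∧
      ∑ t : RR ⧸ sp q, Ev Ω (z + Ω * t.out / q - 3 * t3 Ω) = q * Ev Ω (q * z - 3 * t3 Ω)) ∨
    (sgl q = -1 ∧
      ∑ t : RR ⧸ sp q, Ev Ω (z + Ω * t.out / q + t3 Ω) = q * Ev Ω (q * z - 3 * t3 Ω) ∧
      ∑ t : RR ⧸ sp q, Ev Ω (z + Ω * t.out / q - t3 Ω) = q * Ev Ω (q * z + 3 * t3 Ω) ∧
      ∑ t : RR ⧸ sp q, Ev Ω (z + Ω * t.out / q + 3 * t3 Ω) = q * Ev Ω (q * z - t3 Ω) ∧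
      ∑ t : RR ⧸ sp q, Ev Ω (z + Ω * t.out / q - 3 * t3 Ω) = q * Ev Ω (q * z + t3 Ω)) := by
  have ht := al_tor (al3_t3 hL)
  have ht' := al_tor (al3_three hL)
  have h8 := eight_t3 hL
  simp only [sub_eq_add_neg]
  rcases n1_t3 hL hq with ⟨h1, h2⟩ | ⟨h1, h2⟩
  · left
    refine ⟨h1, dist_c hL (n1_ne hq) i hz ht h2, dist_c hL (n1_ne hq) i hz ht.neg ?_,
      dist_c hL (n1_ne hq) i hz ht' ?_, dist_c hL (n1_ne hq) i hz ht'.neg ?_⟩
    · have := neg_mem h2
      convert this using 1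
      ring
    · have := add_mem (add_mem h2 h2) h2
      convert this using 1
      ring
    · have := neg_mem (add_mem (add_mem h2 h2) h2)
      convert this using 1
      ring
  · right
    refine ⟨h1, dist_c hL (n1_ne hq) i hz ht h2, dist_c hL (n1_ne hq) i hz ht.neg ?_,
      dist_c hL (n1_ne hq) i hz ht' ?_, dist_c hL (n1_ne hq) i hz ht'.neg ?_⟩
    · have := neg_mem h2
      convert this using 1
      ring
    · have := sub_mem (add_mem (add_mem h2 h2) h2) h8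
      convert this using 1
      ring
    · have := neg_mem (sub_mem (add_mem (add_mem h2 h2) h2) h8)
      convert this using 1
      ring

/-- the twist by `χ₈` -/
theorem df_F8 (hL : IsLat L RR Ω) : DF L Ω (F8 L Ω) sgl (-1) where
  per z w h := by
    unfold F8 G8
    rw [Ev_per hL (z := z + t3 Ω) (w := w + t3 Ω) (by convert h using 1; ring),
      Ev_per hL (z := z - t3 Ω) (w := w - t3 Ω) (by convert h using 1; ring),
      Ev_per hL (z := z + 3 * t3 Ω) (w := w + 3 * t3 Ω) (by convert h using 1; ring),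
      Ev_per hL (z := z - 3 * t3 Ω) (w := w - 3 * t3 Ω) (by convert h using 1; ring)]
  par z hz := by
    obtain ⟨p1, p2⟩ := par8 hL hz _ (al_tor (al3_t3 hL))
    obtain ⟨p3, p4⟩ := par8 hL hz _ (al_tor (al3_three hL))
    unfold F8 G8
    rw [p1, p2, p3, p4]
    ring
  dist q hq i z hz := by
    unfold F8 G8
    rw [← Finset.sum_div, Finset.sum_sub_distrib, Finset.sum_sub_distrib, Finset.sum_add_distrib]
    rcases dist8 hL hq i hz with ⟨h0, h1, h2, h3, h4⟩ | ⟨h0, h1, h2, h3, h4⟩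
    · rw [h0, h1, h2, h3, h4]
      ring
    · rw [h0, h1, h2, h3, h4]
      ring

/-- the twist by `χ₋₈` -/
theorem df_Fm (hL : IsLat L RR Ω) : DF L Ω (Fm L Ω) sgl 1 where
  per z w h := by
    unfold Fm Gm8
    rw [Ev_per hL (z := z + t3 Ω) (w := w + t3 Ω) (by convert h using 1; ring),
      Ev_per hL (z := z - t3 Ω) (w := w - t3 Ω) (by convert h using 1; ring),
      Ev_per hL (z := z + 3 * t3 Ω) (w := w + 3 * t3 Ω) (by convert h using 1; ring),
      Ev_per hL (z := z - 3 * t3 Ω) (w := w - 3 * t3 Ω) (by convert h using 1; ring)]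
  par z hz := by
    obtain ⟨p1, p2⟩ := par8 hL hz _ (al_tor (al3_t3 hL))
    obtain ⟨p3, p4⟩ := par8 hL hz _ (al_tor (al3_three hL))
    unfold Fm Gm8
    rw [p1, p2, p3, p4]
    ring
  dist q hq i z hz := by
    unfold Fm Gm8
    rw [← Finset.sum_div, Finset.sum_sub_distrib, Finset.sum_add_distrib, Finset.sum_sub_distrib]
    rcases dist8 hL hq i hz with ⟨h0, h1, h2, h3, h4⟩ | ⟨h0, h1, h2, h3, h4⟩
    · rw [h0, h1, h2, h3, h4]
      ring
    · rw [h0, h1, h2, h3, h4]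
      ring

end Pool.Agent.L0h1.EV
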