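import Pool.Agent.L0h1.EV.Xa
import Pool.Agent.L0h75.EV.Cr
import Pool.Agent.L0h61.EV.T2
import Pool.Agent.L0h61.EV.R2

/-!
# Project EV: the central values of the twists by `D ≡ 2, 3 mod 4`
-/

set_option autoImplicit false
set_option maxHeartbeats 4000000
set_option linter.unusedSectionVars false

open Filter
open scoped Topology PeriodPair

namespace Pool.Agent.L0h1.EV

open Pool.Agent.Y698 Pool.Agent.Y698.SG Pool.Agent.L0h4.TW Pool.Agent.L0h23.ED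
open Pool.Agent.L0h75.EV Pool.Agent.L0h61.EV
open H667R3 Pool.Agent.W192.HK Pool.Agent.TH936.CM Pool.Agent.TH936.PU

variable {L : PeriodPair} {Ω : ℂ} {Γ : Type} [LinearOrderedCommGroupWithZero Γ]
  {v : Valuation ℂ Γ}

section
variable {Q P : Finset ℕ} {ϖ : ℕ → RR}

lemma b_notMem (h : Dt Q P ϖ) : ((2, false) : ℕ × Bool) ∉ insert (7, false) (ix Q P) := by
  rw [Finset.mem_insert]
  rintro (h1 | h1)
  · simp at h1
  · exact Dt.ne2 h h1 rfl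

lemma p_notMem (h : Dt Q P ϖ) : ((2, true) : ℕ × Bool) ∉ insert (7, false) (ix Q P) := by
  rw [Finset.mem_insert]
  rintro (h1 | h1)
  · simp at h1
  · exact Dt.ne2 h h1 rfl

lemma one_ne2 (h : Dt Q P ϖ) {i : ℕ × Bool} (hi : i ∈ insert (7, false) (ix Q P)) :
    i ≠ (2, false) ∧ i ≠ (2, true) ∧ i.1 ≠ 2 := by
  refine ⟨fun h1 => b_notMem h (h1 ▸ hi), fun h1 => p_notMem h (h1 ▸ hi), ?_⟩
  rw [Finset.mem_insert] at hi
  rcases hi with h1 | h1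
  · rw [h1]; norm_num
  · exact Dt.ne2 h h1

lemma ntsum7 (h : Dt Q P ϖ) : ∑ i ∈ insert (7, false) (ix Q P), nt (pf7 Q ϖ i) = 1 := by
  rw [Finset.sum_insert h.ix7, h.ntsum, pf7_o, nt_D1 D1_seven, add_zero]
  rfl

lemma sy_bN (h : Dt Q P ϖ) {i : ℕ × Bool} (hi : i ∈ insert (7, false) (ix Q P)) :
    lg (sy (pf7 Q ϖ i) bN) = lab (pf7 Q ϖ i) := r2.sy_b _ _ (h.kind7 hi)

/-- the symbol of `α` -/
lemma sy_aR (h : Dt Q P ϖ) {i : ℕ × Bool} (hi : i ∈ insert (7, false) (ix Q P)) :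
    lg (sy (pf7 Q ϖ i) aR) = lam (pf7 Q ϖ i) + nt (pf7 Q ϖ i) := by
  have hp := h.fx7.pd i hi
  set x := pf7 Q ϖ i with hx
  have h2 := r2.sy_two _ _ (h.kind7 hi)
  have hb := sy_bN h hi
  rw [← hx] at h2 hb
  have hunit : ∀ y : RR, IsCoprime y x → sy x y = 1 ∨ sy x y = -1 := by
    intro y hy
    refine sy_sgn fun h3 => ?_
    rw [Ideal.mem_span_singleton] at h3
    exact hp.pr.not_isUnit (hy.isUnit_of_dvd' h3 dvd_rfl)
  have hodd := hp.odd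
  have ha : IsCoprime aR x := by
    rw [← aR_mul_bR] at hodd
    exact hodd.of_mul_left_left
  have hb' : IsCoprime bR x := by
    have := hp.odd
    rw [← aR_mul_bR] at this
    exact this.of_mul_left_right
  have hbN : IsCoprime bN x := by
    have e : bN = -bR := by unfold bN bR; ring
    rw [e]
    exact (IsCoprime.neg_left_iff _ _).2 hb'
  have hm1 : IsCoprime (-1 : RR) x := (IsCoprime.neg_left_iff _ _).2 isCoprime_one_left
  have e2 : (2 : RR) = (aR * bN) * (-1) := by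
    rw [← aR_mul_bR]
    unfold bN bR
    ring
  have e3 : sy x 2 = sy x aR * sy x bN * sy x (-1) := by
    rw [e2, hp.mul, hp.mul]
  have hlg : ∀ a b : ℂ, (a = 1 ∨ a = -1) → (b = 1 ∨ b = -1) → lg (a * b) = lg a + lg b := by
    intro a b ha hb
    rcases ha with rfl | rfl <;> rcases hb with rfl | rfl
    · rw [mul_one, lg_one, add_zero]
    · rw [one_mul, lg_one, zero_add]
    · rw [mul_one, lg_one, add_zero]
    · rw [neg_one_mul, neg_neg, lg_one, lg_neg_one]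
      rfl
  have u1 := hunit _ ha
  have u2 := hunit _ hbN
  have u3 := hunit _ hm1
  rw [e3, hlg _ _ (sgn_mul u1 u2) u3, hlg _ _ u1 u2, hb] at h2
  have h4 : lg (sy x (-1)) = nt x := rfl
  rw [h4] at h2
  have t1 := two_self (lab x)
  have t2 := two_self (nt x)
  linear_combination h2 - t1 - t2 + t1

/-- the sign of `ψ (-1) ∏ sy (-1)` -/
lemma par_sgn {ι : Type} {S : Finset ι} {π : ι → RR} (hS : FX S π) {c : ℂ} (hc : c = 1 ∨ c = -1) :
    (c * ∏ i ∈ S, sy (π i) (-1) = 1 ∨ c * ∏ i ∈ S, sy (π i) (-1) = -1) ∧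
      lg (c * ∏ i ∈ S, sy (π i) (-1)) = lg c + ∑ i ∈ S, nt (π i) := by
  have h := sgn_prod (s := S) (f := fun i => sy (π i) (-1)) fun i hi =>
    sy_neg_one (hS.pd i hi).pr
  refine ⟨sgn_mul hc h.1, ?_⟩
  have h2 : lg (∏ i ∈ S, sy (π i) (-1)) = ∑ i ∈ S, nt (π i) := h.2
  rw [← h2]
  have h1 := h.1
  generalize ∏ i ∈ S, sy (π i) (-1) = d at *
  rcases hc with rfl | rfl <;> rcases h1 with rfl | rfl
  · rw [mul_one, lg_one, add_zero]
  · rw [one_mul, lg_one, zero_add]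
  · rw [mul_one, lg_one, add_zero]
  · rw [neg_one_mul, neg_neg, lg_one, lg_neg_one]
    rfl

lemma sgn_of_lg {c : ℂ} (hc : c = 1 ∨ c = -1) : (lg c = 0 → c = 1) ∧ (lg c = 1 → c = -1) := by
  rcases hc with rfl | rfl
  · exact ⟨fun _ => rfl, fun h => by rw [lg_one] at h; exact absurd h zero_ne_one⟩
  · exact ⟨fun h => by rw [lg_neg_one] at h; exact absurd h one_ne_zero, fun _ => rfl⟩

/-- the scalar factor -/
lemma Gb_smul {ι : Type} (F : ℂ → ℂ) (Ω : ℂ) (k : ℕ) (ψ : RR → ℂ) (π : ι → RR) (S : Finset ι)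
    (τ : ℂ) : Gb (fun z => τ * F z) Ω k ψ π S = τ * Gb F Ω k ψ π S := by
  unfold Gb Sv
  rw [← smul_eq_mul τ, smul_finsum]
  refine finsum_congr fun x => ?_
  rw [smul_eq_mul]
  ring

/-- from the residue to the valuation -/
lemma v_of_rd {G τ : ℂ} {c : ZMod 2} {N : ℕ} (hr : Rd v (G / 2 ^ N) c) :
    (c ≠ 0 → v (τ * G) = v τ * v 2 ^ N) ∧ (c = 0 → τ ≠ 0 → v (τ * G) < v τ * v 2 ^ N) := by
  have h2 : v 2 ^ N ≠ 0 := pow_ne_zero _ ((Valuation.ne_zero_iff v).2 two_ne_zero)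
  constructor
  · intro hc
    have hc1 : c = 1 := (zm2 c).resolve_left hc
    rw [hc1, Rd.one_iff] at hr
    have h3 : v (G / 2 ^ N) = 1 := by
      have e : G / 2 ^ N = 1 + (G / 2 ^ N - 1) := by ring
      rw [e, Valuation.map_add_eq_of_lt_left v, map_one]
      rwa [map_one]
    rw [map_div₀, map_pow, div_eq_one_iff_eq h2] at h3
    rw [map_mul, h3]
  · intro hc hτ
    rw [hc, Rd.zero_iff, map_div₀, map_pow, div_lt_one₀ (zero_lt_iff.2 h2)] at hr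
    rw [map_mul]
    exact mul_lt_mul_of_pos_left hr (zero_lt_iff.2 ((Valuation.ne_zero_iff v).2 hτ))

/-- the residue for `D ≡ 3 mod 4` -/
theorem rd3 (hA : S_A) (hP : S_P) (hx : xb4 (-1) = -1) (hl : LD L Ω) (hv : v al < 1)
    (h : Dt Q P ϖ) :
    Rd v (Gb (F4 L Ω) Ω 2 xb4 (pf7 Q ϖ) (insert (7, false) (ix Q P)) /
      2 ^ ((insert (7, false) (ix Q P)).card + 1))
      (kp (l3 Q ϖ) (m3 Q ϖ) (insert (2, false) (insert (7, false) (ix Q P)))) := by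
  have hL := hl.lat
  have hS := h.fx7
  have h1 := hA L Ω Γ v hl hv (F4 L Ω) (XE Ω) (df_F4 hL) (df_XE hL) (con_F4 hl hv) (G4_zero hl)
    2 xb4 le_rfl lc_c4.chb (ℕ × Bool) (pf7 Q ϖ) (2, false) (l3 Q ϖ) (m3 Q ϖ)
    (insert (7, false) (ix Q P)) hS (b_notMem h) (if_pos rfl)
    (fun i hi => if_neg (one_ne2 h hi).1)
    (fun i hi j hj _ => by
      unfold m3
      rw [if_neg (one_ne2 h hi).1, if_neg (one_ne2 h hj).1]
      rfl)
    (fun i hi => by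
      unfold m3
      rw [if_neg (one_ne2 h hi).1, if_pos rfl, nt_xb4 (hS.pd i hi)])
    (fun i hi => by
      unfold m3
      rw [if_pos rfl, sy_bN h hi])
    _ (Finset.Subset.refl _)
  have hp := par_sgn hS (c := (-1 : ℂ)) (Or.inr rfl)
  rw [ntsum7 h, lg_neg_one] at hp
  have hp1 := (sgn_of_lg hp.1).1 (by rw [hp.2]; rfl)
  have h2 := hP L Ω (XE Ω) (fun _ => 1) (-1) hL (df_XE hL) 2 xb4 lc_c4.chb (ℕ × Bool)
    (pf7 Q ϖ) (insert (7, false) (ix Q P)) hS (by rw [hx, hp1]; norm_num)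
  rw [h2, sub_zero] at h1
  exact h1

lemma nE_mem (nb : ZMod 2) (h : Dt Q P ϖ) {i : ℕ × Bool}
    (hi : i ∈ insert (7, false) (ix Q P)) : nE nb Q ϖ i = nt (pf7 Q ϖ i) :=
  if_neg (one_ne2 h hi).2.2

lemma mE_mem (nb : ZMod 2) (h : Dt Q P ϖ) {i j : ℕ × Bool}
    (hi : i ∈ insert (7, false) (ix Q P)) (hj : j ∈ insert (7, false) (ix Q P)) :
    mE nb Q ϖ i j = mm (pf7 Q ϖ) i j := by
  unfold mE
  rw [if_neg (one_ne2 h hi).1, if_neg (one_ne2 h hi).2.1, if_neg (one_ne2 h hj).1,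
    if_neg (one_ne2 h hj).2.1]

lemma z2' : ∀ x y : ZMod 2, ¬ x = y + 1 → x = y := by decide

/-- the residue for `D = 2 M` -/
theorem rdE (hA : S_A) (hP : S_P) (hB : S_B) {nb : ZMod 2} {ψ : RR → ℂ} (hψ : Chb 3 ψ)
    (hx : lg (ψ (-1)) = nb) (hψp : ∀ x : RR, PX x → lg (ψ x) = lab x + nb * nt x)
    {F : ℂ → ℂ} {s : ℂ} (hF : DF L Ω F sgl s) (hcon : Con v Ω F (XE Ω)) (h0 : Rd v (F 0) nb)
    (hl : LD L Ω) (hv : v al < 1) (h : Dt Q P ϖ) :
    Rd v (Gb F Ω 3 ψ (pf7 Q ϖ) (insert (7, false) (ix Q P)) /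
      2 ^ ((insert (7, false) (ix Q P)).card + 1))
      (gd (nE nb Q ϖ) (mE nb Q ϖ)
        (insert (2, true) (insert (2, false) (insert (7, false) (ix Q P))))) := by
  classical
  have hL := hl.lat
  have hS := h.fx7
  have t2 := v_two_lt hv
  set S0 : Finset (ℕ × Bool) := insert (7, false) (ix Q P) with hS0
  set π := pf7 Q ϖ with hπ
  -- the weights
  set l : ℕ × Bool → ZMod 2 := fun i => if i.1 = 2 then 1 else lam (π i) with hld
  have hlm : ∀ i ∈ S0, l i = lam (π i) := fun i hi => if_neg (one_ne2 h hi).2.2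
  have hnb : nE nb Q ϖ (2, false) = nb := if_pos rfl
  have hnp : nE nb Q ϖ (2, true) = nb := if_pos rfl
  have hmb : ∀ i ∈ S0, mE nb Q ϖ i (2, false) = lab (π i) + nb * nt (π i) := by
    intro i hi
    unfold mE
    rw [if_neg (one_ne2 h hi).1, if_neg (one_ne2 h hi).2.1, if_pos rfl]
  have hbm : ∀ i ∈ S0, mE nb Q ϖ (2, false) i = lab (π i) := by
    intro i hi
    unfold mE
    rw [if_pos rfl, if_neg (one_ne2 h hi).2.1]
  have hsgn1 : ψ (-1) = 1 ∨ ψ (-1) = -1 := by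
    refine hψ.sgn _ fun hd => ?_
    have h1 : IsUnit bN := isUnit_of_dvd_unit hd isUnit_one.neg
    have e : bN = -bR := by unfold bN bR; ring
    rw [e, IsUnit.neg_iff] at h1
    exact bR_nu h1
  -- the sums of `X`
  have hXa : ∀ A ⊆ S0, Rd v (Gb (XE Ω) Ω 3 ψ π A / 2 ^ (A.card + 1))
      (if ∑ j ∈ A, nE nb Q ϖ j = nE nb Q ϖ (2, false) + 1 then
        kp l (mE nb Q ϖ) (insert (2, false) A) else 0) := by
    intro A hAS
    have hSA := hS.mono hAS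
    have h1 := hA L Ω Γ v hl hv (F4 L Ω) (XE Ω) (df_F4 hL) (df_XE hL) (con_F4 hl hv) (G4_zero hl)
      3 ψ (by norm_num) hψ (ℕ × Bool) π (2, false) l (mE nb Q ϖ) S0 hS (b_notMem h) (if_pos rfl)
      hlm
      (fun i hi j hj _ => by rw [mE_mem nb h hi hj]; rfl)
      (fun i hi => by rw [hmb i hi, hψp _ (hS.pd i hi)])
      (fun i hi => by rw [hbm i hi, sy_bN h hi]) A hAS
    have hp := par_sgn hSA hsgn1
    have hsum : ∑ j ∈ A, nE nb Q ϖ j = ∑ j ∈ A, nt (π j) :=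
      Finset.sum_congr rfl fun j hj => nE_mem nb h (hAS hj)
    rw [hx, ← hsum] at hp
    rw [hnb]
    by_cases hc : ∑ j ∈ A, nE nb Q ϖ j = nb + 1
    · rw [if_pos hc]
      have hp1 := (sgn_of_lg hp.1).2 (by
        rw [hp.2, hc]
        linear_combination two_self nb)
      have h2 := hP L Ω (F4 L Ω) (fun _ => 1) 1 hL (df_F4 hL) 3 ψ hψ (ℕ × Bool) π A hSA hp1
      rw [h2, zero_sub, neg_div] at h1
      have h3 := Rd.neg t2 h1
      rwa [neg_neg] at h3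
    · rw [if_neg hc]
      have hc' : ∑ j ∈ A, nE nb Q ϖ j = nb := z2' _ _ hc
      have hp1 := (sgn_of_lg hp.1).1 (by rw [hp.2, hc', two_self])
      have h2 := hP L Ω (XE Ω) (fun _ => 1) (-1) hL (df_XE hL) 3 ψ hψ (ℕ × Bool) π A hSA
        (by rw [hp1, neg_neg])
      rw [h2, zero_div, Rd.zero_iff, map_zero]
      exact zero_lt_one
  have hrec : ∀ i ∈ S0, ∀ j ∈ S0, i ≠ j →
      mE nb Q ϖ i j + mE nb Q ϖ j i = nE nb Q ϖ i * nE nb Q ϖ j := by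
    intro i hi j hj hij
    rw [mE_mem nb h hi hj, mE_mem nb h hj hi, nE_mem nb h hi, nE_mem nb h hj]
    exact h.rec7 i hi j hj hij
  refine hB L Ω Γ v hl hv F (XE Ω) s hF (df_XE hL) hcon 3 ψ (by norm_num) hψ (ℕ × Bool) π
    (2, false) (2, true) (nE nb Q ϖ) l (fun i => lab (π i)) (mE nb Q ϖ) S0 hS (b_notMem h)
    (p_notMem h) (by simp) (if_pos rfl) (by rw [hnp, hnb]) (by rw [hnb]; exact h0)
    (fun i hi => nE_mem nb h hi) hlm (fun i hi => (sy_bN h hi).symm)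
    (fun i hi j hj _ => by rw [mE_mem nb h hi hj]; rfl) hrec
    (fun i hi => by rw [hnb, nE_mem nb h hi]; exact hψp _ (hS.pd i hi))
    (fun i hi => by rw [hnb, nE_mem nb h hi]; exact hmb i hi) hbm
    (fun i hi => ?_) (fun i hi => ?_) ?_ ?_ (fun A hAS hne => ?_) hXa S0 (Finset.Subset.refl _)
  · unfold mE
    rw [if_neg (one_ne2 h hi).1, if_neg (one_ne2 h hi).2.1, if_neg (by simp), if_pos rfl,
      hlm i hi]
  · unfold mE
    rw [if_neg (by simp), if_pos rfl, if_neg (one_ne2 h hi).1, hlm i hi, hnp, nE_mem nb h hi]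
  · unfold mE
    rw [if_pos rfl, if_pos rfl]
  · unfold mE
    rw [if_neg (by simp), if_pos rfl, if_pos rfl, hnp, hnb, sq_self]
  · exact ga_XE hl hv hS h.rec7 (fun i hi => by rw [hlm i hi]; exact sy_aR h hi)
      (fun i hi => nE_mem nb h hi) (fun i hi j hj _ => mE_mem nb h hi hj) A hAS hne

/-! ### the central values -/

/-- the final computation of the valuations, `D ≡ 3 mod 4` -/
lemma v_fin3 {Z G : ℂ} {c : ZMod 2} {N : ℕ} {τ : ℂ} (hτ : v τ = v 2)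
    (h1 : v 2 * v Z * v (2 ^ 2) = v (τ * G)) (hr : Rd v (G / 2 ^ (1 + N + 1)) c) :
    (c ≠ 0 → v Z = v 2 ^ N) ∧ (c = 0 → v Z < v 2 ^ N) := by
  have h20 : v 2 ≠ 0 := (Valuation.ne_zero_iff v).2 two_ne_zero
  have hτ0 : τ ≠ 0 := by
    intro h
    rw [h, map_zero] at hτ
    exact h20 hτ.symm
  obtain ⟨k1, k2⟩ := v_of_rd (τ := τ) hr
  have e1 : v 2 * v Z * v (2 ^ 2) = v Z * v 2 ^ 3 := by
    rw [map_pow]
    simp only [pow_succ, pow_zero, one_mul]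
    ac_rfl
  have e2 : v τ * v 2 ^ (1 + N + 1) = v 2 ^ N * v 2 ^ 3 := by
    rw [hτ]
    simp only [pow_add, pow_succ, pow_zero, one_mul]
    ac_rfl
  rw [e1] at h1
  constructor
  · intro hc
    have := k1 hc
    rw [← h1, e2] at this
    exact mul_right_cancel₀ (pow_ne_zero 3 h20) this
  · intro hc
    have := k2 hc hτ0
    rw [← h1, e2] at this
    exact lt_of_mul_lt_mul_right this zero_le

/-- the final computation of the valuations, `D = 2 M` -/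
lemma v_finE {Z G r : ℂ} {c : ZMod 2} {N : ℕ} {τ : ℂ} (hτ : v τ ^ 2 = v 2 ^ 3) (hr2 : v r ^ 2 = v 2)
    (h1 : v 2 * v Z * v (2 ^ 3) = v (τ * G)) (hr : Rd v (G / 2 ^ (1 + N + 1)) c) :
    (c ≠ 0 → v Z * v r = v 2 ^ N) ∧ (c = 0 → v Z * v r < v 2 ^ N) := by
  have h20 : v 2 ≠ 0 := (Valuation.ne_zero_iff v).2 two_ne_zero
  have hr0 : v r ≠ 0 := by
    intro h
    rw [h] at hr2
    exact h20 (by rw [← hr2]; simp)
  have hτ' : v τ = v 2 * v r := by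
    have h3 : (v τ / (v 2 * v r)) ^ 2 = 1 := by
      rw [div_pow, mul_pow, hr2, hτ, ← pow_succ, div_self (pow_ne_zero _ h20)]
    have h4 := gsq h3
    rwa [div_eq_one_iff_eq (mul_ne_zero h20 hr0)] at h4
  have hτ0 : τ ≠ 0 := by
    intro h
    rw [h, map_zero] at hτ'
    exact mul_ne_zero h20 hr0 hτ'.symm
  obtain ⟨k1, k2⟩ := v_of_rd (τ := τ) hr
  have e1 : v 2 * v Z * v (2 ^ 3) * v r = v Z * v r * (v 2 ^ 4) := by
    rw [map_pow]
    simp only [pow_succ, pow_zero, one_mul]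
    ac_rfl
  have e2 : v τ * v 2 ^ (1 + N + 1) * v r = v 2 ^ N * v 2 ^ 4 := by
    rw [hτ']
    calc v 2 * v r * v 2 ^ (1 + N + 1) * v r = v 2 * v r ^ 2 * v 2 ^ (1 + N + 1) := by
          simp only [pow_add, pow_succ, pow_zero, one_mul]
          ac_rfl
      _ = _ := by
          rw [hr2]
          simp only [pow_add, pow_succ, pow_zero, one_mul]
          ac_rfl
  constructor
  · intro hc
    have := k1 hc
    rw [← h1] at this
    have h5 : v 2 * v Z * v (2 ^ 3) * v r = v τ * v 2 ^ (1 + N + 1) * v r := by rw [this]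
    rw [e1, e2] at h5
    exact mul_right_cancel₀ (pow_ne_zero 4 h20) h5
  · intro hc
    have := k2 hc hτ0
    rw [← h1] at this
    have h5 : v 2 * v Z * v (2 ^ 3) * v r < v τ * v 2 ^ (1 + N + 1) * v r :=
      mul_lt_mul_of_pos_right this (zero_lt_iff.2 hr0)
    rw [e1, e2] at h5
    exact lt_of_mul_lt_mul_right h5 zero_le

lemma card7 (h : Dt Q P ϖ) :
    (insert (7, false) (ix Q P)).card + 1 = 1 + (Q.card + 2 * P.card) + 1 := by
  rw [Finset.card_insert_of_notMem h.ix7, card_ixX h.dis]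
  ring

/-- **the central values for `D ≡ 3 mod 4`** -/
theorem fin3 (hA : S_A) (hP : S_P) (hx : xb4 (-1) = -1)
    (hG : ∀ (L : PeriodPair) (Ω : ℂ), IsLat L RR Ω → ∀ z, Gx 2 xa4 Ω z = G4 Ω z)
    (h : Dt Q P ϖ) :
    ∃ F : ℂ → ℂ, Differentiable ℂ F ∧
    (∀ z : ℂ, 3 / 2 < z.re → HasProd (fun p : Nat.Primes =>
      (1 - bc p * ((c4 ((p : ℕ) : ℤ) * ∏ q ∈ Q ∪ P, qch q (p : ℕ)) * ((p : ℕ) : ℂ) ^ (-z)) +
      ec p * ((c4 ((p : ℕ) : ℤ) * ∏ q ∈ Q ∪ P, qch q (p : ℕ)) * ((p : ℕ) : ℂ) ^ (-z)) ^ 2)⁻¹)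
      (F z)) ∧
    ∀ (Γ : Type) [LinearOrderedCommGroupWithZero Γ] (v : Valuation ℂ Γ) (L : PeriodPair) (Ω : ℂ),
      LD L Ω → v al < 1 →
      (Crit3 Q P ϖ → v ((starRingEnd ℂ) (F 1) / Ω) = v 2 ^ (Q.card + 2 * P.card)) ∧
      (¬ Crit3 Q P ϖ → v ((starRingEnd ℂ) (F 1) / Ω) < v 2 ^ (Q.card + 2 * P.card)) := by
  obtain ⟨F, g1, g2, g3⟩ := val_even' h lc_c4
  refine ⟨F, g1, g2, fun Γ _ v L Ω hl hv => ?_⟩
  have h3 := g3 Γ v L Ω hl hv
  have hr := rd3 (v := v) hA hP hx hl hv h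
  rw [card7 h] at hr
  have e : (Gx 2 xa4 Ω) = fun z => tau4 L Ω * F4 L Ω z := by
    funext z
    rw [hG L Ω hl.lat]
    unfold F4
    rw [mul_div_cancel₀ _ (tau4_ne hl)]
  rw [e, Gb_smul] at h3
  obtain ⟨k1, k2⟩ := v_fin3 (v_tau4 hl hv) h3 hr
  unfold Crit3
  rw [not_not]
  exact ⟨k1, k2⟩

/-- **the central values for `D = 2 M`** -/
theorem finE (hA : S_A) (hP : S_P) (hB : S_B) {nb : ZMod 2} {ψ₀ : ℤ → ℂ} {χ ψ : RR → ℂ}
    (hl : Lc ψ₀ 3 χ ψ) (hx : lg (ψ (-1)) = nb)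
    (hψp : ∀ x : RR, PX x → lg (ψ x) = lab x + nb * nt x)
    {s : ℂ} {F3 : PeriodPair → ℂ → ℂ → ℂ} {τ : PeriodPair → ℂ → ℂ}
    (hG : ∀ (L : PeriodPair) (Ω : ℂ), LD L Ω → ∀ z, Gx 3 χ Ω z = τ L Ω * F3 L Ω z)
    (hF : ∀ (L : PeriodPair) (Ω : ℂ), IsLat L RR Ω → DF L Ω (F3 L Ω) sgl s)
    (hF2 : ∀ (Γ : Type) [LinearOrderedCommGroupWithZero Γ] (v : Valuation ℂ Γ) (L : PeriodPair)
      (Ω : ℂ), LD L Ω → v al < 1 → Con v Ω (F3 L Ω) (XE Ω) ∧ Rd v (F3 L Ω 0) nb ∧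
        v (τ L Ω) ^ 2 = v 2 ^ 3)
    (h : Dt Q P ϖ) :
    ∃ F : ℂ → ℂ, Differentiable ℂ F ∧
    (∀ z : ℂ, 3 / 2 < z.re → HasProd (fun p : Nat.Primes =>
      (1 - bc p * ((ψ₀ ((p : ℕ) : ℤ) * ∏ q ∈ Q ∪ P, qch q (p : ℕ)) * ((p : ℕ) : ℂ) ^ (-z)) +
      ec p * ((ψ₀ ((p : ℕ) : ℤ) * ∏ q ∈ Q ∪ P, qch q (p : ℕ)) * ((p : ℕ) : ℂ) ^ (-z)) ^ 2)⁻¹)
      (F z)) ∧
    ∀ (Γ : Type) [LinearOrderedCommGroupWithZero Γ] (v : Valuation ℂ Γ) (L : PeriodPair) (Ω r : ℂ),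
      LD L Ω → v al < 1 → v r ^ 2 = v 2 →
      (CritE nb Q P ϖ → v ((starRingEnd ℂ) (F 1) / Ω) * v r = v 2 ^ (Q.card + 2 * P.card)) ∧
      (¬ CritE nb Q P ϖ →
        v ((starRingEnd ℂ) (F 1) / Ω) * v r < v 2 ^ (Q.card + 2 * P.card)) := by
  obtain ⟨F, g1, g2, g3⟩ := val_even' h hl
  refine ⟨F, g1, g2, fun Γ _ v L Ω r hld hv hr2 => ?_⟩
  have h3 := g3 Γ v L Ω hld hv
  obtain ⟨f1, f2, f3⟩ := hF2 Γ v L Ω hld hv
  have hr := rdE (v := v) hA hP hB hl.chb hx hψp (hF L Ω hld.lat) f1 f2 hld hv h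
  rw [card7 h] at hr
  have e : (Gx 3 χ Ω) = fun z => τ L Ω * F3 L Ω z := by
    funext z
    exact hG L Ω hld z
  rw [e, Gb_smul] at h3
  obtain ⟨k1, k2⟩ := v_finE f3 hr2 h3 hr
  unfold CritE
  rw [not_not]
  exact ⟨k1, k2⟩

end

end Pool.Agent.L0h1.EV
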