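import Pool.Agent.L0h4.TW.Ei
import Pool.Agent.Y698.Tw

/-!
# Project EV: the points of order `α²` and `α³`
-/

set_option autoImplicit false
set_option maxHeartbeats 4000000
set_option linter.unusedSectionVars false

open Filter
open scoped Topology PeriodPair

namespace Pool.Agent.L0h1.EV

open Pool.Agent.Y698 Pool.Agent.Y698.SG Pool.Agent.L0h4.TW
open H667R3 Pool.Agent.W192.HK Pool.Agent.TH936.CM Pool.Agent.TH936.PU

variable {L : PeriodPair} {Ω : ℂ} {Γ : Type*} [LinearOrderedCommGroupWithZero Γ]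
  {v : Valuation ℂ Γ}

/-! ### congruences -/

/-- congruence of integral elements modulo `v` -/
def Cg (v : Valuation ℂ Γ) (a b : ℂ) : Prop := v (a - b) < 1

lemma Cg.refl (a : ℂ) : Cg v a a := by
  unfold Cg
  rw [sub_self, map_zero]
  exact zero_lt_one

lemma Cg.symm {a b : ℂ} (h : Cg v a b) : Cg v b a := by
  unfold Cg at *
  rwa [Valuation.map_sub_swap]

lemma Cg.trans {a b c : ℂ} (h : Cg v a b) (h' : Cg v b c) : Cg v a c := by
  unfold Cg at *
  have e : a - c = (a - b) + (b - c) := by ring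
  rw [e]
  exact Valuation.map_add_lt v h h'

lemma Cg.add {a b c d : ℂ} (h : Cg v a b) (h' : Cg v c d) : Cg v (a + c) (b + d) := by
  unfold Cg at *
  have e : a + c - (b + d) = (a - b) + (c - d) := by ring
  rw [e]
  exact Valuation.map_add_lt v h h'

lemma Cg.le {a b : ℂ} (h : Cg v a b) (hb : v b ≤ 1) : v a ≤ 1 := by
  have e : a = (a - b) + b := by ring
  rw [e]
  exact (Valuation.map_add v _ _).trans (max_le (le_of_lt h) hb)

lemma Cg.mul {a b c d : ℂ} (h : Cg v a b) (h' : Cg v c d) (hb : v b ≤ 1) (hd : v d ≤ 1) :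
    Cg v (a * c) (b * d) := by
  have ha := h.le hb
  unfold Cg at *
  have e : a * c - b * d = a * (c - d) + (a - b) * d := by ring
  rw [e]
  refine Valuation.map_add_lt v ?_ ?_
  · rw [map_mul, mul_comm]
    exact mul_lt_one_of_lt_of_le h' ha
  · rw [map_mul]
    exact mul_lt_one_of_lt_of_le h hd

lemma Cg.unit {a b : ℂ} (h : Cg v a b) (hb : v b = 1) : v a = 1 := by
  have e : a = b + (a - b) := by ring
  rw [e, Valuation.map_add_eq_of_lt_left v, hb]
  rw [hb]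
  exact h

lemma Cg.inv {a b : ℂ} (h : Cg v a b) (hb : v b = 1) : Cg v a⁻¹ b⁻¹ := by
  have ha := h.unit hb
  have ha0 : a ≠ 0 := (Valuation.ne_zero_iff v).1 (by rw [ha]; exact one_ne_zero)
  have hb0 : b ≠ 0 := (Valuation.ne_zero_iff v).1 (by rw [hb]; exact one_ne_zero)
  have h2 := h.symm
  unfold Cg at *
  have e : a⁻¹ - b⁻¹ = (b - a) * a⁻¹ * b⁻¹ := by field_simp
  rw [e, map_mul, map_mul, map_inv₀, map_inv₀, ha, hb, inv_one, mul_one, mul_one]
  exact h2

lemma Cg.div {a b c d : ℂ} (h : Cg v a b) (h' : Cg v c d) (hb : v b ≤ 1) (hd : v d = 1) :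
    Cg v (a / c) (b / d) := by
  rw [div_eq_mul_inv, div_eq_mul_inv]
  exact h.mul (h'.inv hd) hb (by rw [map_inv₀, hd, inv_one])

lemma Cg.pow {a b : ℂ} (h : Cg v a b) (hb : v b ≤ 1) (k : ℕ) : Cg v (a ^ k) (b ^ k) := by
  induction k with
  | zero => simpa using Cg.refl 1
  | succ k ih =>
    rw [pow_succ, pow_succ]
    exact ih.mul h (v_pow_le hb k) hb

lemma Cg.neg_right (hv : v al < 1) {a b : ℂ} (h : Cg v a b) (hb : v b ≤ 1) : Cg v a (-b) := by
  refine h.trans ?_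
  unfold Cg
  have e : b - -b = 2 * b := by ring
  rw [e, map_mul]
  exact mul_lt_one_of_lt_of_le (v_two_lt hv) hb

lemma cg_of {a b c : ℂ} (e : a - b = c) (hc : v c < 1) : Cg v a b := by
  unfold Cg
  rwa [e]

/-- square roots -/
lemma cg_sq (hv : v al < 1) {a b : ℂ} (h : a ^ 2 = b ^ 2) (hb : v b ≤ 1) : Cg v a b := by
  rcases sq_eq_sq_iff_eq_or_eq_neg.1 h with h1 | h1
  · rw [h1]; exact Cg.refl _
  · rw [h1]
    exact ((Cg.refl b).neg_right hv hb).symm

/-! ### the numbers -/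

lemma al3 : al ^ 3 = -al - 2 := by
  linear_combination (al + 1) * al_sq

lemma bl_sq : bl ^ 2 = bl - 2 := by
  unfold bl
  linear_combination al_sq

lemma v_bl_add (hv : v al < 1) : v (3 * bl + 2) = 1 := by
  have e : (3 * bl + 2 : ℂ) = bl + 2 * (bl + 1) := by ring
  rw [e, Valuation.map_add_eq_of_lt_left v, v_bl hv]
  rw [v_bl hv, map_mul]
  refine mul_lt_one_of_lt_of_le (v_two_lt hv) ?_
  exact (Valuation.map_add v _ _).trans (max_le (v_bl hv).le (by rw [map_one]))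

/-- the point `Ω / α²` -/
noncomputable def t2 (Ω : ℂ) : ℂ := Ω / al ^ 2

/-- the point `Ω / α³` -/
noncomputable def t3 (Ω : ℂ) : ℂ := Ω / al ^ 3

lemma al_t2 : al * t2 Ω = tA Ω := by
  unfold t2 tA
  have := al_ne
  field_simp

lemma al_t3 : al * t3 Ω = t2 Ω := by
  unfold t3 t2
  have := al_ne
  field_simp

lemma lat_mul (hL : IsLat L RR Ω) {z : ℂ} (x : RR) (h : z ∈ L.lattice) : (x : ℂ) * z ∈ L.lattice :=
  hL.mul x z h

lemma al_mul_mem (hL : IsLat L RR Ω) {z : ℂ} (h : z ∈ L.lattice) : al * z ∈ L.lattice := by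
  have := hL.mul aR z h
  rwa [aR_coe] at this

lemma om_mem (hL : IsLat L RR Ω) (x : RR) : Ω * x ∈ L.lattice := hL.mem_mul x

lemma t2_notMem (hL : IsLat L RR Ω) : t2 Ω ∉ L.lattice := fun h => tA_notMem hL (by
  rw [← al_t2]; exact al_mul_mem hL h)

lemma t3_notMem (hL : IsLat L RR Ω) : t3 Ω ∉ L.lattice := fun h => t2_notMem hL (by
  rw [← al_t3]; exact al_mul_mem hL h)

/-- the point `2 t2` is `tA` -/
lemma two_t2 (hL : IsLat L RR Ω) : 2 * t2 Ω - tA Ω ∈ L.lattice := by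
  have e : 2 * t2 Ω - tA Ω = Ω * ((-1 : RR) : ℂ) := by
    unfold t2 tA
    have := al_ne
    push_cast
    field_simp
    linear_combination Ω * al_sq
  rw [e]
  exact om_mem hL _

/-- the point `4 t2` is zero -/
lemma four_t2 (hL : IsLat L RR Ω) : 4 * t2 Ω ∈ L.lattice := by
  have h1 := two_t2 hL
  have h2 := add_mem (add_mem h1 h1) (two_tA hL)
  convert h2 using 1
  ring

/-- the point `2 t3` is `± t2` -/
lemma four_t3 (hL : IsLat L RR Ω) : 4 * t3 Ω - tA Ω ∈ L.lattice := by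
  have e : 4 * t3 Ω - tA Ω = Ω * ((aR ^ 2 : RR) : ℂ) := by
    unfold t3 tA
    have := al_ne
    push_cast
    rw [aR_coe]
    field_simp
    linear_combination (-Ω * (al ^ 3 + al ^ 2 - al - 2)) * al_sq
  rw [e]
  exact om_mem hL _


lemma eight_t3 (hL : IsLat L RR Ω) : 8 * t3 Ω ∈ L.lattice := by
  have h1 := four_t3 hL
  have h2 := add_mem (add_mem h1 h1) (two_tA hL)
  convert h2 using 1
  ring

lemma two_t3 (hL : IsLat L RR Ω) : 2 * t3 Ω ∉ L.lattice := fun h => tA_notMem hL (by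
  have h1 := sub_mem (add_mem h h) (four_t3 hL)
  convert h1 using 1
  ring)

lemma four_t3' (hL : IsLat L RR Ω) : 4 * t3 Ω ∉ L.lattice := fun h => tA_notMem hL (by
  have h1 := sub_mem h (four_t3 hL)
  convert h1 using 1
  ring)

lemma three_t3 (hL : IsLat L RR Ω) : 3 * t3 Ω ∉ L.lattice := fun h => t3_notMem hL (by
  have h1 := sub_mem (add_mem (add_mem h h) h) (eight_t3 hL)
  convert h1 using 1
  ring)

/-- `α · 3 t3` is `-t2` -/
lemma al_three_t3 (hL : IsLat L RR Ω) : al * (3 * t3 Ω) - -t2 Ω ∈ L.lattice := by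
  have e : al * (3 * t3 Ω) - -t2 Ω = 4 * t2 Ω := by
    have := al_t3 (Ω := Ω)
    linear_combination 3 * this
  rw [e]
  exact four_t2 hL

/-- a point of order prime to `α` plus a point of order a power of `α` -/
lemma tb_add (h : LD L Ω) (hv : v al < 1) {z t : ℂ} (hz : Tb v L z) {k : ℕ}
    (ht : al ^ k * t ∈ L.lattice) : z + t ∉ L.lattice := by
  intro h1
  apply pow_notMem h hv hz k
  have h2 : al ^ k * (z + t) ∈ L.lattice := by
    have := h.lat.mul (aR ^ k) _ h1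
    push_cast at this
    rwa [aR_coe] at this
  have h3 := sub_mem h2 ht
  convert h3 using 1
  ring

lemma al2_t2 (hL : IsLat L RR Ω) : al ^ 2 * t2 Ω ∈ L.lattice := by
  have e : al ^ 2 * t2 Ω = Ω * ((1 : RR) : ℂ) := by
    unfold t2
    have := al_ne
    push_cast
    field_simp
  rw [e]
  exact om_mem hL _

lemma al3_t3 (hL : IsLat L RR Ω) : al ^ 3 * t3 Ω ∈ L.lattice := by
  have e : al ^ 3 * t3 Ω = Ω * ((1 : RR) : ℂ) := by
    unfold t3
    have := al_ne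
    push_cast
    field_simp
  rw [e]
  exact om_mem hL _

lemma al3_three (hL : IsLat L RR Ω) : al ^ 3 * (3 * t3 Ω) ∈ L.lattice := by
  have h1 := al3_t3 hL
  have h2 := add_mem (add_mem h1 h1) h1
  convert h2 using 1
  ring

lemma al1_tA (hL : IsLat L RR Ω) : al ^ 1 * tA Ω ∈ L.lattice := by
  rw [pow_one]
  exact tA_mem hL

lemma neg_pow {t : ℂ} {k : ℕ} (ht : al ^ k * t ∈ L.lattice) : al ^ k * (-t) ∈ L.lattice := by
  rw [mul_neg]
  exact neg_mem ht

lemma tb_sub (h : LD L Ω) (hv : v al < 1) {z t : ℂ} (hz : Tb v L z) {k : ℕ}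
    (ht : al ^ k * t ∈ L.lattice) : z - t ∉ L.lattice := by
  rw [sub_eq_add_neg]
  exact tb_add h hv hz (neg_pow ht)

lemma tb_tor {z : ℂ} (hz : Tb v L z) : Tor L z := by
  obtain ⟨β, h1, h2⟩ := hz.tor
  refine ⟨β, ?_, h2⟩
  rintro rfl
  simp at h1

lemma al_tor {t : ℂ} {k : ℕ} (ht : al ^ k * t ∈ L.lattice) : Tor L t := by
  refine ⟨aR ^ k, ?_, ?_⟩
  · refine pow_ne_zero k fun h => al_ne ?_
    rw [← aR_coe, h]
    rfl
  · push_cast
    rw [aR_coe]
    exact ht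

/-! ### the coordinates -/

lemma Xx_tA (h : LD L Ω) : Xx L (tA Ω) = (al - 3) / 4 := by
  unfold Xx
  rw [h.ea]
  ring

lemma Xx_tB (h : LD L Ω) : Xx L (tB Ω) = -(2 + al) / 4 := by
  unfold Xx
  rw [h.eb]
  ring

/-- the coordinate of `t2` -/
lemma Xx_t2 (h : LD L Ω) : Xx L (t2 Ω) = bl / 2 := by
  have h1 := (h.mul_al (z := t2 Ω) (by rw [al_t2]; exact tA_notMem h.lat)).1
  rw [al_t2, Xx_tA h] at h1
  have h2 : (Xx L (t2 Ω) - bl / 2) ^ 2 = 0 := by
    unfold bl at h1 ⊢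
    linear_combination -h1 + (((al - 2) / 4) * Xx L (t2 Ω) + 1 / 2) * al_sq
  exact sub_eq_zero.1 (pow_eq_zero_iff (two_ne_zero)|>.1 h2)

/-- the coordinates of `± t3`, `± 3 t3` -/
lemma Xx_quad (h : LD L Ω) {w : ℂ} (hw : Xx L (al * w) = bl / 2) (hn : al * w ∉ L.lattice) :
    Xx L w ^ 2 - al * Xx L w + (3 * bl - 4) / 2 = 0 := by
  have h1 := (h.mul_al hn).1
  rw [hw] at h1
  unfold bl at h1 ⊢
  linear_combination -h1 + (-al * Xx L w / 2 - 1 / 2) * al_sq


lemma Xx_t3 (h : LD L Ω) : Xx L (t3 Ω) ^ 2 - al * Xx L (t3 Ω) + (3 * bl - 4) / 2 = 0 :=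
  Xx_quad h (by rw [al_t3, Xx_t2 h]) (by rw [al_t3]; exact t2_notMem h.lat)

lemma al_three_notMem (h : LD L Ω) : al * (3 * t3 Ω) ∉ L.lattice := fun h1 => t2_notMem h.lat (by
  have h2 := sub_mem (al_three_t3 h.lat) h1
  convert h2 using 1
  ring)

lemma Xx_3t3 (h : LD L Ω) :
    Xx L (3 * t3 Ω) ^ 2 - al * Xx L (3 * t3 Ω) + (3 * bl - 4) / 2 = 0 :=
  Xx_quad h (by rw [Xx_per (al_three_t3 h.lat), Xx_neg, Xx_t2 h]) (al_three_notMem h)

lemma Xx_ne (h : LD L Ω) : Xx L (t3 Ω) - Xx L (3 * t3 Ω) ≠ 0 := by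
  intro h1
  have h2 : ℘[L] (t3 Ω) = ℘[L] (3 * t3 Ω) := by
    unfold Xx at h1
    linear_combination h1
  rcases (wp_eq_iff L (t3_notMem h.lat) (three_t3 h.lat)).1 h2 with h3 | h3
  · apply four_t3' h.lat
    convert h3 using 1
    ring
  · apply two_t3 h.lat
    have := neg_mem h3
    convert this using 1
    ring

lemma Xx_add (h : LD L Ω) : Xx L (t3 Ω) + Xx L (3 * t3 Ω) = al := by
  apply mul_left_cancel₀ (Xx_ne h)
  linear_combination Xx_t3 h - Xx_3t3 h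

lemma Xx_mul (h : LD L Ω) : Xx L (t3 Ω) * Xx L (3 * t3 Ω) = (3 * bl - 4) / 2 := by
  linear_combination Xx_t3 h + (-Xx L (t3 Ω)) * Xx_add h + 2 * Xx L (t3 Ω) * (Xx_add h) -
    2 * Xx L (t3 Ω) * (Xx_add h) - 2 * Xx_t3 h + 2 * Xx L (t3 Ω) * Xx_add h

end Pool.Agent.L0h1.EV
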