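import Pool.Agent.L0h1.EV.Fin
import Pool.Agent.L0h98.EV.Ind
import Pool.Agent.L0h75.EV.Gf

/-!
# Project EV: the central values of the twists by `D ≡ 2, 3 mod 4`, unconditional form
-/

set_option autoImplicit false
set_option maxHeartbeats 4000000
set_option linter.unusedSectionVars false

open Filter
open scoped Topology PeriodPair

namespace Pool.Agent.L0h1.EV

open Pool.Agent.Y698 Pool.Agent.Y698.SG Pool.Agent.L0h4.TW Pool.Agent.L0h23.ED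
open Pool.Agent.L0h75.EV Pool.Agent.L0h61.EV
open H667R3 Pool.Agent.W192.HK Pool.Agent.TH936.CM Pool.Agent.TH936.PU

variable {Q P : Finset ℕ} {ϖ : ℕ → RR}

/-- **the central values for `D ≡ 3 mod 4`** -/
theorem val3 (h : Dt Q P ϖ) :
    ∃ F : ℂ → ℂ, Differentiable ℂ F ∧
    (∀ z : ℂ, 3 / 2 < z.re → HasProd (fun p : Nat.Primes =>
      (1 - bc p * ((c4 ((p : ℕ) : ℤ) * ∏ q ∈ Q ∪ P, qch q (p : ℕ)) * ((p : ℕ) : ℂ) ^ (-z)) +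
      ec p * ((c4 ((p : ℕ) : ℤ) * ∏ q ∈ Q ∪ P, qch q (p : ℕ)) * ((p : ℕ) : ℂ) ^ (-z)) ^ 2)⁻¹)
      (F z)) ∧
    ∀ (Γ : Type) [LinearOrderedCommGroupWithZero Γ] (v : Valuation ℂ Γ) (L : PeriodPair) (Ω : ℂ),
      LD L Ω → v al < 1 →
      (Crit3 Q P ϖ → v ((starRingEnd ℂ) (F 1) / Ω) = v 2 ^ (Q.card + 2 * P.card)) ∧
      (¬ Crit3 Q P ϖ → v ((starRingEnd ℂ) (F 1) / Ω) < v 2 ^ (Q.card + 2 * P.card)) :=
  fin3 Pool.Agent.L0h98.EV.t_A Pool.Agent.L0h98.EV.t_P xb4_neg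
    (fun L Ω hL z => Gx_c4 hL z) h

/-- **the central values for `D = 2 M`, `M ≡ 1 mod 4`** -/
theorem valE1 (h : Dt Q P ϖ) :
    ∃ F : ℂ → ℂ, Differentiable ℂ F ∧
    (∀ z : ℂ, 3 / 2 < z.re → HasProd (fun p : Nat.Primes =>
      (1 - bc p * ((c8 ((p : ℕ) : ℤ) * ∏ q ∈ Q ∪ P, qch q (p : ℕ)) * ((p : ℕ) : ℂ) ^ (-z)) +
      ec p * ((c8 ((p : ℕ) : ℤ) * ∏ q ∈ Q ∪ P, qch q (p : ℕ)) * ((p : ℕ) : ℂ) ^ (-z)) ^ 2)⁻¹)
      (F z)) ∧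
    ∀ (Γ : Type) [LinearOrderedCommGroupWithZero Γ] (v : Valuation ℂ Γ) (L : PeriodPair) (Ω r : ℂ),
      LD L Ω → v al < 1 → v r ^ 2 = v 2 →
      (CritE 0 Q P ϖ → v ((starRingEnd ℂ) (F 1) / Ω) * v r = v 2 ^ (Q.card + 2 * P.card)) ∧
      (¬ CritE 0 Q P ϖ →
        v ((starRingEnd ℂ) (F 1) / Ω) * v r < v 2 ^ (Q.card + 2 * P.card)) := by
  refine finE Pool.Agent.L0h98.EV.t_A Pool.Agent.L0h98.EV.t_P Pool.Agent.L0h98.EV.t_B lc_c8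
    (by rw [xb8_neg, lg_one]) (fun x _ => by rw [lab_xb8, zero_mul, add_zero])
    (F3 := F8) (τ := tau8) (fun L Ω hl z => ?_) (fun L Ω hL => df_F8 hL)
    (fun Γ _ v L Ω hl hv => ⟨con_F8 hl hv, ?_, v_tau8 hl hv⟩) h
  · rw [Gx_c8 hl.lat]
    unfold F8
    rw [mul_div_cancel₀ _ (tau8_ne hl)]
    rfl
  · unfold F8
    rw [G8_zero hl, zero_div, Rd.zero_iff, map_zero]
    exact zero_lt_one

/-- **the central values for `D = 2 M`, `M ≡ 3 mod 4`** -/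
theorem valE3 (h : Dt Q P ϖ) :
    ∃ F : ℂ → ℂ, Differentiable ℂ F ∧
    (∀ z : ℂ, 3 / 2 < z.re → HasProd (fun p : Nat.Primes =>
      (1 - bc p * ((c8' ((p : ℕ) : ℤ) * ∏ q ∈ Q ∪ P, qch q (p : ℕ)) * ((p : ℕ) : ℂ) ^ (-z)) +
      ec p * ((c8' ((p : ℕ) : ℤ) * ∏ q ∈ Q ∪ P, qch q (p : ℕ)) * ((p : ℕ) : ℂ) ^ (-z)) ^ 2)⁻¹)
      (F z)) ∧
    ∀ (Γ : Type) [LinearOrderedCommGroupWithZero Γ] (v : Valuation ℂ Γ) (L : PeriodPair) (Ω r : ℂ),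
      LD L Ω → v al < 1 → v r ^ 2 = v 2 →
      (CritE 1 Q P ϖ → v ((starRingEnd ℂ) (F 1) / Ω) * v r = v 2 ^ (Q.card + 2 * P.card)) ∧
      (¬ CritE 1 Q P ϖ →
        v ((starRingEnd ℂ) (F 1) / Ω) * v r < v 2 ^ (Q.card + 2 * P.card)) := by
  refine finE Pool.Agent.L0h98.EV.t_A Pool.Agent.L0h98.EV.t_P Pool.Agent.L0h98.EV.t_B lc_c8'
    (by rw [xb8'_neg, lg_neg_one]) (fun x hx => by rw [lab_nt hx, one_mul])
    (F3 := Fm) (τ := taum) (fun L Ω hl z => ?_) (fun L Ω hL => df_Fm hL)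
    (fun Γ _ v L Ω hl hv => ⟨con_Fm hl hv, rd_Gm8 hl hv, v_taum hl hv⟩) h
  rw [Gx_c8' hl.lat]
  unfold Fm
  rw [mul_div_cancel₀ _ (taum_ne hl)]
  rfl

end Pool.Agent.L0h1.EV
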