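import Pool.Agent.L0h1.EV.Pt

/-!
# Project EV: the twisted Eisenstein numbers modulo the prime above two
-/

set_option autoImplicit false
set_option maxHeartbeats 4000000
set_option linter.unusedSectionVars false

open Filter
open scoped Topology PeriodPair

namespace Pool.Agent.L0h1.EV

open Pool.Agent.Y698 Pool.Agent.Y698.SG Pool.Agent.L0h4.TW
open H667R3 Pool.Agent.W192.HK Pool.Agent.TH936.CM Pool.Agent.TH936.PU

variable {L : PeriodPair} {Ω : ℂ} {Γ : Type*} [LinearOrderedCommGroupWithZero Γ]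
  {v : Valuation ℂ Γ}

lemma gsq {a : Γ} (h : a ^ 2 = 1) : a = 1 := by
  rcases lt_trichotomy a 1 with h1 | h1 | h1
  · exact absurd h (pow_lt_one₀ zero_le h1 two_ne_zero).ne
  · exact h1
  · exact absurd h (one_lt_pow₀ h1 two_ne_zero).ne'

lemma v_al4 (hv : v al < 1) : v 4 < 1 := by
  have e : (4 : ℂ) = 2 * 2 := by norm_num
  rw [e, map_mul]
  exact mul_lt_one_of_lt_of_le (v_two_lt hv) (v_two_lt hv).le

lemma v_lt_mul {a b : ℂ} (ha : v a < 1) (hb : v b ≤ 1) : v (a * b) < 1 := by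
  rw [map_mul]
  exact mul_lt_one_of_lt_of_le ha hb

lemma v_sub_lt {a b : ℂ} (ha : v a < 1) (hb : v b < 1) : v (a - b) < 1 :=
  (Valuation.map_sub v _ _).trans_lt (max_lt ha hb)

lemma v_add_lt' {a b : ℂ} (ha : v a < 1) (hb : v b < 1) : v (a + b) < 1 :=
  (Valuation.map_add v _ _).trans_lt (max_lt ha hb)

/-- the derivative modulo the prime above two -/
lemma cg_deriv (h : LD L Ω) (hv : v al < 1) {z : ℂ} (hz : Tb v L z) :
    Cg v (℘'[L] z) (Xx L z) := by
  have h1 := hz.y_int h hv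
  unfold Yy at h1
  refine cg_of (c := 2 * ((℘'[L] z - Xx L z) / 2)) (by ring) ?_
  exact v_lt_mul (v_two_lt hv) h1

/-- the coordinate of `α z` modulo the prime above two -/
lemma cg_frob (h : LD L Ω) (hv : v al < 1) {z : ℂ} (hz : Tb v L z) :
    Cg v (Xx L (al * z)) (Xx L z ^ 2) := by
  have h0 := pow_notMem h hv hz 1
  rw [pow_one] at h0
  obtain ⟨h1, h2⟩ := h.mul_al h0
  have i1 := hz.int h hv
  have i2 := (hz.al h hv).int h hv
  have hbl := v_bl hv
  have e : Xx L (al * z) - Xx L z ^ 2 =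
      al * (al * (Xx L (al * z) * Xx L z) + Xx L (al * z) + 1) -
        2 * Xx L z ^ 2 := by
    unfold bl at h1
    linear_combination -h1
  refine cg_of e ?_
  refine v_sub_lt (v_lt_mul hv ?_) (v_lt_mul (v_two_lt hv) (v_pow_le i1 2))
  refine v_add_le (v_add_le (v_mul_le hv.le (v_mul_le i2 i1)) i2) (by rw [map_one])

/-! ### the half difference -/

/-- the half difference by the point `tA` -/
noncomputable def XE (Ω z : ℂ) : ℂ := (Ev Ω z - Ev Ω (z + tA Ω)) / 2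

lemma notMem_tA (h : LD L Ω) {w : ℂ} (hw : al * w ∉ L.lattice) :
    w ∉ L.lattice ∧ w + tA Ω ∉ L.lattice ∧ w - tA Ω ∉ L.lattice := by
  have hL := h.lat
  refine ⟨fun h1 => hw (al_mul_mem hL h1), fun h1 => hw ?_, fun h1 => hw ?_⟩
  · have h2 := sub_mem (al_mul_mem hL h1) (tA_mem hL)
    convert h2 using 1
    ring
  · have h2 := add_mem (al_mul_mem hL h1) (tA_mem hL)
    convert h2 using 1
    ring

lemma XE_eq (h : LD L Ω) {w : ℂ} (hw : al * w ∉ L.lattice) (ht : Tor L w) :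
    XE Ω w = ℘'[L] w / (al - 3 - 4 * Xx L w) ∧ al - 3 - 4 * Xx L w ≠ 0 := by
  have hL := h.lat
  obtain ⟨h0, h1, h2⟩ := notMem_tA h hw
  have hs := Ev_sec hL ht (al_tor (al1_tA hL)) h0 (tA_notMem hL) h1 h2
  have hp : Ev Ω (w - tA Ω) = Ev Ω (w + tA Ω) := Ev_per hL (by
    have := neg_mem (two_tA hL)
    convert this using 1
    ring)
  rw [hp] at hs
  have hne : ℘[L] w - ℘[L] (tA Ω) ≠ 0 := by
    rw [sub_ne_zero, Ne, wp_eq_iff L h0 (tA_notMem hL)]
    tauto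
  have e1 : ℘[L] w - ℘[L] (tA Ω) = -(al - 3 - 4 * Xx L w) / 4 := by
    rw [h.ea]
    unfold Xx
    ring
  have hne2 : al - 3 - 4 * Xx L w ≠ 0 := by
    intro h3
    rw [e1, h3] at hne
    norm_num at hne
  refine ⟨?_, hne2⟩
  unfold XE
  unfold Dd at hs
  rw [e1] at hs
  have e2 : Ev Ω w - Ev Ω (w + tA Ω) = -(1 / 2) * (℘'[L] w / (-(al - 3 - 4 * Xx L w) / 4)) := by
    linear_combination -(1 / 2 : ℂ) * hs
  rw [e2]
  field_simp
  ring

/-- the half difference modulo the prime above two -/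
lemma cg_XE (h : LD L Ω) (hv : v al < 1) {z : ℂ} (hz : Tb v L z) : Cg v (XE Ω z) (Xx L z) := by
  have h0 := pow_notMem h hv hz 1
  rw [pow_one] at h0
  have i1 := hz.int h hv
  rw [(XE_eq h h0 (tb_tor hz)).1]
  have e : Xx L z = Xx L z / 1 := by rw [div_one]
  conv_rhs => rw [e]
  refine (cg_deriv h hv hz).div ?_ i1 (map_one v)
  refine cg_of (c := al - 4 * (1 + Xx L z)) (by ring) ?_
  refine v_sub_lt hv (v_lt_mul (v_al4 hv) (v_add_le (by rw [map_one]) i1))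

/-- the square of the half difference -/
lemma XE_sq (h : LD L Ω) {w : ℂ} (hw : al * w ∉ L.lattice) (ht : Tor L w) :
    bl ^ 2 * XE Ω w ^ 2 = Xx L (al * w) + (2 + al) / 4 := by
  obtain ⟨h1, h2⟩ := XE_eq h hw ht
  obtain ⟨h3, h4⟩ := h.mul_al hw
  have h5 := h.ode (notMem_tA h hw).1
  rw [h1, div_pow]
  apply mul_left_cancel₀ h4
  rw [← mul_assoc, ← mul_div_assoc, div_eq_iff (pow_ne_zero 2 h2), h5]
  set x := Xx L w
  unfold bl at h3 ⊢
  linear_combination (-(al - 3 - 4 * x) ^ 2) * h3 - ((-4)*al^2*x^4 + 4*al*x^4 + 3*al^2*x^3 +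
    (-3)*al*x^3 + 6*al^2*x^2 + (1/4)*al^3*x + 8*x^4 + (-5)*al*x^2 + (13/4)*al^2*x + 14*x^3 +
    (1/4)*al^2 + (-1)*x^2 + 2*al + (-10)*x + (-17/4)) * al_sq

/-! ### the character modulo `α²` -/

lemma bl_t2 (hL : IsLat L RR Ω) : bl * t2 Ω - -t2 Ω ∈ L.lattice := by
  have e : bl * t2 Ω - -t2 Ω = Ω * ((-1 : RR) : ℂ) := by
    unfold t2 bl
    have := al_ne
    push_cast
    field_simp
    linear_combination Ω * al_sq
  rw [e]
  exact om_mem hL _

lemma t2_add_tB (hL : IsLat L RR Ω) : t2 Ω + tB Ω ∉ L.lattice := by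
  intro h1
  have h2 := al_mul_mem hL (al_mul_mem hL h1)
  have h3 : al * (al * tB Ω) ∈ L.lattice := by
    have h4 := sub_mem h2 (al2_t2 hL)
    convert h4 using 1
    ring
  have h5 := al_tB hL
  have h6 := al_mul_mem hL h5
  have h7 := sub_mem h3 h6
  have h8 := sub_mem h7 h5
  apply tB_notMem hL
  convert h8 using 1
  ring

lemma v_dt2 (h : LD L Ω) (hv : v al < 1) : v (2 * ℘'[L] (t2 Ω)) = 1 := by
  have h1 := h.ode (t2_notMem h.lat)
  rw [Xx_t2 h] at h1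
  have e : (2 * ℘'[L] (t2 Ω)) ^ 2 = -(7 * (3 * bl + 2)) := by
    rw [mul_pow, h1]
    unfold bl
    linear_combination (1 - 2 * al) * al_sq
  have h7 : v (7 : ℂ) = 1 := by
    have e7 : (7 : ℂ) = 1 + 2 * 3 := by norm_num
    rw [e7, Valuation.map_add_eq_of_lt_left v, map_one]
    rw [map_one]
    refine v_lt_mul (v_two_lt hv) ?_
    have := v_nat (v := v) 3
    push_cast at this
    exact this
  have h2 : v ((2 * ℘'[L] (t2 Ω)) ^ 2) = 1 := by
    rw [e, Valuation.map_neg, map_mul, h7, v_bl_add hv, mul_one]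
  rw [map_pow] at h2
  exact gsq h2

/-- the value at `t2` -/
lemma Ev_t2 (h : LD L Ω) : (3 * bl + 2) * Ev Ω (t2 Ω) = -℘'[L] (t2 Ω) := by
  have hL := h.lat
  have h1 := Ev_bl hL (al_tor (al2_t2 hL)) (t2_notMem hL) (t2_add_tB hL)
  rw [Ev_per hL (bl_t2 hL), Ev_neg hL (al_tor (al2_t2 hL))] at h1
  have e1 : ℘[L] (t2 Ω) - ℘[L] (tB Ω) = (bl + 3) / 4 := by
    have h2 := Xx_t2 h
    have h3 := Xx_tB h
    unfold Xx at h2 h3
    unfold bl at *
    linear_combination h2 - h3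
  unfold Dd at h1
  rw [e1] at h1
  have h3 : bl + 3 ≠ 0 := by
    intro h4
    have h5 : (14 : ℂ) = 0 := by
      unfold bl at h4
      linear_combination (al + 3) * h4 + al_sq
    norm_num at h5
  field_simp at h1
  unfold bl at h1 ⊢
  linear_combination (-1 / 4 : ℂ) * h1 + (-1 / 2 : ℂ) * Ev Ω (t2 Ω) * al_sq

lemma bl3_ne : 3 * bl + 2 ≠ 0 := by
  intro h4
  have h5 : (28 : ℂ) = 0 := by
    unfold bl at h4
    linear_combination (2 + 3 * al) * h4 + 9 * al_sq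
  norm_num at h5

/-- the twist by `χ₄` -/
noncomputable def G4 (Ω z : ℂ) : ℂ := Ev Ω (z + t2 Ω) - Ev Ω (z - t2 Ω)

/-- the normalising factor -/
noncomputable def tau4 (L : PeriodPair) (Ω : ℂ) : ℂ := 4 * ℘'[L] (t2 Ω) / ((3 * bl + 2) * bl)

/-- the symmetric form of the difference -/
lemma Ev_sub (hL : IsLat L RR Ω) {z t : ℂ} (hz : Tor L z) (ht : Tor L t) (h0 : z ∉ L.lattice)
    (ht0 : t ∉ L.lattice) (h1 : z + t ∉ L.lattice) (h2 : z - t ∉ L.lattice) :
    Ev Ω (z + t) - Ev Ω (z - t) = 2 * Ev Ω t + ℘'[L] t / (Xx L t - Xx L z) := by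
  have h1' : t + z ∉ L.lattice := by rwa [add_comm]
  have h2' : t - z ∉ L.lattice := fun h => h2 (by
    have := neg_mem h
    rwa [neg_sub] at this)
  have hs := Ev_sec hL ht hz ht0 h0 h1' h2'
  have e1 : t - z = -(z - t) := by ring
  rw [e1, Ev_neg hL (hz.sub hL ht), add_comm t z] at hs
  unfold Dd at hs
  have e2 : Xx L t - Xx L z = ℘[L] t - ℘[L] z := by unfold Xx; ring
  rw [e2]
  linear_combination hs

lemma dwp_t2_ne (h : LD L Ω) : ℘'[L] (t2 Ω) ≠ 0 := by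
  intro h0
  have h1 := h.ode (t2_notMem h.lat)
  rw [Xx_t2 h, h0] at h1
  have e : (2 * (0 : ℂ)) ^ 2 = -(7 * (3 * bl + 2)) := by
    rw [mul_pow, h1]
    unfold bl
    linear_combination (1 - 2 * al) * al_sq
  have := bl3_ne
  apply this
  linear_combination (1 / 7 : ℂ) * e

lemma tau4_ne (h : LD L Ω) : tau4 L Ω ≠ 0 := by
  unfold tau4
  exact div_ne_zero (mul_ne_zero (by norm_num) (dwp_t2_ne h)) (mul_ne_zero bl3_ne bl_ne)

/-- the exact formula -/
lemma G4_eq (h : LD L Ω) {z : ℂ} (hz : Tor L z) (h0 : z ∉ L.lattice)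
    (h1 : z + t2 Ω ∉ L.lattice) (h2 : z - t2 Ω ∉ L.lattice) :
    G4 Ω z / tau4 L Ω = bl * (bl + 1 + Xx L z) / (bl - 2 * Xx L z) ∧ bl - 2 * Xx L z ≠ 0 := by
  have hL := h.lat
  have hne : bl - 2 * Xx L z ≠ 0 := by
    intro h3
    have h4 : ℘[L] z = ℘[L] (t2 Ω) := by
      have h5 := Xx_t2 h
      unfold Xx at h3 h5
      linear_combination (-1 / 2 : ℂ) * h3 - h5
    rcases (wp_eq_iff L h0 (t2_notMem hL)).1 h4 with h5 | h5
    · exact h1 h5
    · exact h2 h5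
  refine ⟨?_, hne⟩
  have hs := Ev_sub hL hz (al_tor (al2_t2 hL)) h0 (t2_notMem hL) h1 h2
  have hE := Ev_t2 h
  have hb := bl3_ne
  have hbl := bl_ne
  have hd := dwp_t2_ne h
  unfold G4 tau4
  rw [hs, Xx_t2 h]
  have hE' : Ev Ω (t2 Ω) = -℘'[L] (t2 Ω) / (3 * bl + 2) := by
    rw [eq_div_iff hb, mul_comm]
    exact hE
  have hne2 : bl / 2 - Xx L z ≠ 0 := by
    intro h3
    apply hne
    linear_combination 2 * h3
  rw [hE']
  field_simp
  ring

/-- **the twist by `χ₄` modulo the prime above two** -/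
lemma cg_G4 (h : LD L Ω) (hv : v al < 1) {z : ℂ} (hz : Tb v L z) :
    Cg v (G4 Ω z / tau4 L Ω) (Xx L z) := by
  have i1 := hz.int h hv
  rw [(G4_eq h (tb_tor hz) hz.ne (tb_add h hv hz (al2_t2 h.lat))
    (tb_sub h hv hz (al2_t2 h.lat))).1]
  have hb1 : Cg v bl 1 := cg_of (c := -al) (by unfold bl; ring) (by rwa [Valuation.map_neg])
  have hb : Cg v (bl * (bl + 1 + Xx L z)) (1 * (0 + Xx L z)) := by
    refine hb1.mul (Cg.add ?_ (Cg.refl _)) (by rw [map_one]) (by rwa [zero_add])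
    refine cg_of (c := 2 - al) (by unfold bl; ring) ?_
    exact v_sub_lt (v_two_lt hv) hv
  have hc : Cg v (bl - 2 * Xx L z) 1 := by
    refine cg_of (c := -al - 2 * Xx L z) (by unfold bl; ring) ?_
    exact v_sub_lt (by rwa [Valuation.map_neg]) (v_lt_mul (v_two_lt hv) i1)
  have := hb.div hc (by rwa [one_mul, zero_add]) (map_one v)
  rwa [one_mul, zero_add, div_one] at this

/-- the value at zero -/
lemma G4_zero (h : LD L Ω) : G4 Ω 0 / tau4 L Ω = -bl / 2 := by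
  have hL := h.lat
  have hE := Ev_t2 h
  have hb := bl3_ne
  have hbl := bl_ne
  have hd := dwp_t2_ne h
  unfold G4 tau4
  rw [zero_add, zero_sub, Ev_neg hL (al_tor (al2_t2 hL))]
  have hE' : Ev Ω (t2 Ω) = -℘'[L] (t2 Ω) / (3 * bl + 2) := by
    rw [eq_div_iff hb, mul_comm]
    exact hE
  rw [hE']
  field_simp
  ring

/-- the valuation of the factor -/
lemma v_tau4 (h : LD L Ω) (hv : v al < 1) : v (tau4 L Ω) = v 2 := by
  have h1 := v_dt2 h hv
  have e : tau4 L Ω = 2 * (2 * ℘'[L] (t2 Ω)) / ((3 * bl + 2) * bl) := by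
    unfold tau4
    ring
  rw [e, map_div₀, map_mul, h1, map_mul, v_bl_add hv, v_bl hv, mul_one, mul_one, div_one]

end Pool.Agent.L0h1.EV
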