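import Pool.Agent.L0h1.EV.Gx

/-!
# Project EV: the twists by `χ₈` and `χ₋₈` modulo the prime above two
-/

set_option autoImplicit false
set_option maxHeartbeats 4000000
set_option linter.unusedSectionVars false

open Filter
open scoped Topology PeriodPair

namespace Pool.Agent.L0h1.EV

open Pool.Agent.Y698 Pool.Agent.Y698.SG Pool.Agent.L0h4.TW
open H667R3 Pool.Agent.W192.HK Pool.Agent.TH936.CM Pool.Agent.TH936.PU

variable {L : PeriodPair} {Ω : ℂ} {Γ : Type*} [LinearOrderedCommGroupWithZero Γ]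
  {v : Valuation ℂ Γ}

/-- the product of the two coordinates -/
noncomputable def P0 : ℂ := (3 * bl - 4) / 2

lemma v_bl4 (hv : v al < 1) : v (3 * bl - 4) = 1 := by
  have e : (3 * bl - 4 : ℂ) = bl + 2 * (bl - 2) := by ring
  rw [e, Valuation.map_add_eq_of_lt_left v, v_bl hv]
  rw [v_bl hv, map_mul]
  refine mul_lt_one_of_lt_of_le (v_two_lt hv) ?_
  exact (Valuation.map_sub v _ _).trans (max_le (v_bl hv).le (v_two_lt hv).le)

lemma bl4_ne : 3 * bl - 4 ≠ 0 := by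
  intro h4
  have h5 : (22 : ℂ) = 0 := by
    unfold bl at h4
    linear_combination (3 * al - 4) * h4 + 9 * al_sq
  norm_num at h5

lemma P0_ne : P0 ≠ 0 := div_ne_zero bl4_ne two_ne_zero

lemma v_P0 (hv : v al < 1) : v P0 = (v 2)⁻¹ := by
  unfold P0
  rw [map_div₀, v_bl4 hv, one_div]

/-- the twist by `χ₈` -/
noncomputable def G8 (Ω z : ℂ) : ℂ :=
  Ev Ω (z + t3 Ω) + Ev Ω (z - t3 Ω) - Ev Ω (z + 3 * t3 Ω) - Ev Ω (z - 3 * t3 Ω)

/-- the difference of the coordinates -/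
noncomputable def dl (L : PeriodPair) (Ω : ℂ) : ℂ := Xx L (t3 Ω) - Xx L (3 * t3 Ω)

lemma dl_sq (h : LD L Ω) : dl L Ω ^ 2 = 7 * al := by
  have h1 := Xx_add h
  have h2 := Xx_mul h
  unfold dl
  unfold bl at h2
  linear_combination (Xx L (t3 Ω) + Xx L (3 * t3 Ω) + al) * h1 - 4 * h2 + al_sq

lemma dl_ne (h : LD L Ω) : dl L Ω ≠ 0 := Xx_ne h

/-- the normalising factor -/
noncomputable def tau8 (L : PeriodPair) (Ω : ℂ) : ℂ := dl L Ω / P0

lemma tau8_ne (h : LD L Ω) : tau8 L Ω ≠ 0 := div_ne_zero (dl_ne h) P0_ne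

lemma v_seven (hv : v al < 1) : v (7 : ℂ) = 1 := by
  have e7 : (7 : ℂ) = 1 + 2 * 3 := by norm_num
  rw [e7, Valuation.map_add_eq_of_lt_left v, map_one]
  rw [map_one]
  refine v_lt_mul (v_two_lt hv) ?_
  have := v_nat (v := v) 3
  push_cast at this
  exact this

lemma v_tau8 (h : LD L Ω) (hv : v al < 1) : v (tau8 L Ω) ^ 2 = v 2 ^ 3 := by
  have h2 : v 2 ≠ 0 := (Valuation.ne_zero_iff v).2 two_ne_zero
  rw [← map_pow]
  unfold tau8
  rw [div_pow, dl_sq h, map_div₀, map_mul, v_seven hv, one_mul, map_pow, v_P0 hv, ← v_two hv,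
    inv_pow, div_inv_eq_mul]
  exact (pow_succ' _ 2).symm

/-- the exact formula -/
lemma G8_eq (h : LD L Ω) (hv : v al < 1) {z : ℂ} (hz : Tb v L z) :
    G8 Ω z * (Xx L z ^ 2 - al * Xx L z + P0) = ℘'[L] z * dl L Ω ∧
      Xx L z ^ 2 - al * Xx L z + P0 ≠ 0 := by
  have hL := h.lat
  have a1 := tb_add h hv hz (al3_t3 hL)
  have a2 := tb_sub h hv hz (al3_t3 hL)
  have a3 := tb_add h hv hz (al3_three hL)
  have a4 := tb_sub h hv hz (al3_three hL)
  have hs1 := Ev_sec hL (tb_tor hz) (al_tor (al3_t3 hL)) hz.ne (t3_notMem hL) a1 a2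
  have hs2 := Ev_sec hL (tb_tor hz) (al_tor (al3_three hL)) hz.ne (three_t3 hL) a3 a4
  have n1 : Xx L z - Xx L (t3 Ω) ≠ 0 := by
    intro h3
    have h4 : ℘[L] z = ℘[L] (t3 Ω) := by
      unfold Xx at h3
      linear_combination h3
    rcases (wp_eq_iff L hz.ne (t3_notMem hL)).1 h4 with h5 | h5
    · exact a1 h5
    · exact a2 h5
  have n2 : Xx L z - Xx L (3 * t3 Ω) ≠ 0 := by
    intro h3
    have h4 : ℘[L] z = ℘[L] (3 * t3 Ω) := by
      unfold Xx at h3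
      linear_combination h3
    rcases (wp_eq_iff L hz.ne (three_t3 hL)).1 h4 with h5 | h5
    · exact a3 h5
    · exact a4 h5
  have e1 : ℘[L] z - ℘[L] (t3 Ω) = Xx L z - Xx L (t3 Ω) := by unfold Xx; ring
  have e2 : ℘[L] z - ℘[L] (3 * t3 Ω) = Xx L z - Xx L (3 * t3 Ω) := by unfold Xx; ring
  unfold Dd at hs1 hs2
  rw [e1] at hs1
  rw [e2] at hs2
  have h1 := Xx_add h
  have h2 := Xx_mul h
  have e3 : Xx L z ^ 2 - al * Xx L z + P0 =
      (Xx L z - Xx L (t3 Ω)) * (Xx L z - Xx L (3 * t3 Ω)) := by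
    unfold P0
    linear_combination Xx L z * h1 - h2
  rw [e3]
  refine ⟨?_, mul_ne_zero n1 n2⟩
  have e4 : G8 Ω z = ℘'[L] z / (Xx L z - Xx L (t3 Ω)) - ℘'[L] z / (Xx L z - Xx L (3 * t3 Ω)) := by
    unfold G8
    linear_combination hs1 - hs2
  rw [e4]
  unfold dl
  field_simp
  ring

lemma cg_den (h : LD L Ω) (hv : v al < 1) {z : ℂ} (hz : Tb v L z) :
    Cg v ((Xx L z ^ 2 - al * Xx L z + P0) / P0) 1 := by
  have i1 := hz.int h hv
  have hP := P0_ne
  refine cg_of (c := (P0)⁻¹ * (Xx L z ^ 2 - al * Xx L z)) (by field_simp; ring) ?_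
  refine v_lt_mul ?_ (v_sub_le (v_pow_le i1 2) (v_mul_le hv.le i1))
  rw [map_inv₀, v_P0 hv, inv_inv]
  exact v_two_lt hv

/-- **the twist by `χ₈` modulo the prime above two** -/
lemma cg_G8 (h : LD L Ω) (hv : v al < 1) {z : ℂ} (hz : Tb v L z) :
    Cg v (G8 Ω z / tau8 L Ω) (Xx L z) := by
  have i1 := hz.int h hv
  obtain ⟨h1, h2⟩ := G8_eq h hv hz
  have hP := P0_ne
  have hd := dl_ne h
  have e : G8 Ω z / tau8 L Ω = ℘'[L] z / ((Xx L z ^ 2 - al * Xx L z + P0) / P0) := by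
    unfold tau8
    rw [div_div_eq_mul_div, div_div_eq_mul_div, div_eq_div_iff hd h2]
    linear_combination P0 * h1
  rw [e]
  have := (cg_deriv h hv hz).div (cg_den h hv hz) i1 (map_one v)
  rwa [div_one] at this

lemma G8_zero (h : LD L Ω) : G8 Ω 0 = 0 := by
  have hL := h.lat
  unfold G8
  rw [zero_add, zero_sub, Ev_neg hL (al_tor (al3_t3 hL)), zero_add, zero_sub,
    Ev_neg hL (al_tor (al3_three hL))]
  ring

/-! ### the twist by `χ₋₈` -/

/-- the twist by `χ₋₈` -/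
noncomputable def Gm8 (Ω z : ℂ) : ℂ :=
  Ev Ω (z + t3 Ω) - Ev Ω (z - t3 Ω) + Ev Ω (z + 3 * t3 Ω) - Ev Ω (z - 3 * t3 Ω)

lemma XE_t3 (hL : IsLat L RR Ω) (z : ℂ) :
    XE Ω (z + t3 Ω) = (Ev Ω (z + t3 Ω) - Ev Ω (z - 3 * t3 Ω)) / 2 := by
  unfold XE
  rw [Ev_per (z := z - 3 * t3 Ω) (w := z + t3 Ω + tA Ω) hL (by
    have h5 := add_mem (two_tA hL) (four_t3 hL)
    convert h5 using 1
    ring)]

lemma XE_3t3 (hL : IsLat L RR Ω) (z : ℂ) :
    XE Ω (z + 3 * t3 Ω) = (Ev Ω (z + 3 * t3 Ω) - Ev Ω (z - t3 Ω)) / 2 := by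
  unfold XE
  rw [Ev_per (z := z - t3 Ω) (w := z + 3 * t3 Ω + tA Ω) hL (by
    have h5 := add_mem (two_tA hL) (four_t3 hL)
    convert h5 using 1
    ring)]

lemma Gm8_XE (hL : IsLat L RR Ω) (z : ℂ) : Gm8 Ω z = 2 * (XE Ω (z + t3 Ω) + XE Ω (z + 3 * t3 Ω)) := by
  rw [XE_t3 hL, XE_3t3 hL]
  unfold Gm8
  ring

lemma G8_XE (hL : IsLat L RR Ω) (z : ℂ) : G8 Ω z = 2 * (XE Ω (z + t3 Ω) - XE Ω (z + 3 * t3 Ω)) := by
  rw [XE_t3 hL, XE_3t3 hL]
  unfold G8
  ring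

lemma three_t2 (hL : IsLat L RR Ω) (u : ℂ) : (u + 3 * t2 Ω) - (u - t2 Ω) ∈ L.lattice := by
  have h := four_t2 hL
  convert h using 1
  ring

/-- the product of the two twists -/
lemma G8_Gm8 (h : LD L Ω) (hv : v al < 1) {z : ℂ} (hz : Tb v L z) :
    bl ^ 2 * (G8 Ω z * Gm8 Ω z) = 4 * (Xx L (al * z + t2 Ω) - Xx L (al * z - t2 Ω)) := by
  have hL := h.lat
  have hu := hz.al h hv
  have e1 : al * (z + t3 Ω) = al * z + t2 Ω := by rw [mul_add, al_t3]
  have e2 : al * (z + 3 * t3 Ω) = al * z + 3 * t2 Ω := by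
    have := al_t3 (Ω := Ω)
    linear_combination 3 * this
  have n1 : al * (z + t3 Ω) ∉ L.lattice := by
    rw [e1]
    exact tb_add h hv hu (al2_t2 hL)
  have n2 : al * (z + 3 * t3 Ω) ∉ L.lattice := by
    rw [e2]
    intro h1
    apply tb_sub h hv hu (al2_t2 hL)
    have := sub_mem h1 (three_t2 hL (al * z))
    convert this using 1
    ring
  have s1 := XE_sq h n1 ((tb_tor hz).add hL (al_tor (al3_t3 hL)))
  have s2 := XE_sq h n2 ((tb_tor hz).add hL (al_tor (al3_three hL)))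
  rw [e1] at s1
  rw [e2, Xx_per (three_t2 hL (al * z))] at s2
  rw [Gm8_XE hL, G8_XE hL]
  linear_combination 4 * s1 - 4 * s2

lemma dl2 (h : LD L Ω) {u : ℂ} (hu : 2 * u ∉ L.lattice) (h1 : u + t2 Ω ∉ L.lattice)
    (h2 : u - t2 Ω ∉ L.lattice) (h0 : u ∉ L.lattice) :
    (Xx L (u + t2 Ω) - Xx L (u - t2 Ω)) ^ 2 * (Xx L u - bl / 2) ^ 4 =
      ℘'[L] u ^ 2 * ℘'[L] (t2 Ω) ^ 2 := by
  have hL := h.lat
  have s := h.sum hu (t2_notMem hL) h1 h2
  have p := h.prod hu (t2_notMem hL) h1 h2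
  have o1 := h.ode h0
  have o2 := h.ode (t2_notMem hL)
  have e := Xx_t2 h
  rw [o1, o2]
  rw [← e]
  set x := Xx L u
  set y := Xx L (t2 Ω)
  set a := Xx L (u + t2 Ω)
  set b := Xx L (u - t2 Ω)
  have e1 : (a - b) ^ 2 * (x - y) ^ 4 = ((a + b) * (x - y) ^ 2) ^ 2 -
      4 * ((a * b) * (x - y) ^ 2) * (x - y) ^ 2 := by ring
  rw [e1, s, p]
  ring

/-- the normalising factor -/
noncomputable def taum (L : PeriodPair) (Ω : ℂ) : ℂ :=
  16 * ℘'[L] (t2 Ω) * P0 / (bl ^ 4 * dl L Ω)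

lemma taum_ne (h : LD L Ω) : taum L Ω ≠ 0 := by
  unfold taum
  exact div_ne_zero (mul_ne_zero (mul_ne_zero (by norm_num) (dwp_t2_ne h)) P0_ne)
    (mul_ne_zero (pow_ne_zero _ bl_ne) (dl_ne h))

lemma v_taum (h : LD L Ω) (hv : v al < 1) : v (taum L Ω) ^ 2 = v 2 ^ 3 := by
  have h20 : v al ≠ 0 := (Valuation.ne_zero_iff v).2 al_ne
  have h1 := v_dt2 h hv
  have h2 := dl_sq h
  have e : taum L Ω = 8 * (2 * ℘'[L] (t2 Ω)) * P0 / (bl ^ 4 * dl L Ω) := by
    unfold taum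
    ring
  have e2 : taum L Ω ^ 2 = (2 ^ 3) ^ 2 * (2 * ℘'[L] (t2 Ω)) ^ 2 * P0 ^ 2 / (bl ^ 8 * (7 * al)) := by
    rw [e, div_pow, mul_pow (bl ^ 4), h2]
    ring
  rw [← map_pow, e2, map_div₀, map_mul, map_mul, map_mul, map_mul, map_pow, map_pow, map_pow,
    map_pow, map_pow, h1, v_bl hv, v_seven hv, v_P0 hv, one_pow, one_pow, one_mul, one_mul, mul_one,
    ← v_two hv]
  field_simp

/-- **the twist by `χ₋₈` modulo the prime above two** -/
lemma cg_Gm8 (h : LD L Ω) (hv : v al < 1) {z : ℂ} (hz : Tb v L z) (h2z : 2 * z ∉ L.lattice) :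
    Cg v (Gm8 Ω z / taum L Ω) (Xx L z) := by
  have hL := h.lat
  have hu := hz.al h hv
  have n0 := pow_notMem h hv hz 1
  rw [pow_one] at n0
  have h2u : 2 * (al * z) ∉ L.lattice := by
    have hz2 : Tb v L (2 * z) := by
      have := hz.mul hL 2 (by rwa [two_coe])
      rwa [two_coe] at this
    have := (hz2.al h hv).ne
    intro h3
    apply this
    convert h3 using 1
    ring
  have i1 := hz.int h hv
  have iu := hu.int h hv
  obtain ⟨g1, g2⟩ := G8_eq h hv hz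
  have g3 := G8_Gm8 h hv hz
  have g4 := dl2 h h2u (tb_add h hv hu (al2_t2 hL)) (tb_sub h hv hu (al2_t2 hL)) hu.ne
  have g5 := h.deriv_al n0
  obtain ⟨-, g6⟩ := h.mul_al n0
  have hp' : ℘'[L] z ≠ 0 := (Valuation.ne_zero_iff v).1 (by
    rw [(hz.deriv h hv h2z).1]; exact one_ne_zero)
  have hdl := dl_sq h
  have hd0 := dl_ne h
  have hP := P0_ne
  have hbl := bl_ne
  have ht := dwp_t2_ne h
  have hal := al_ne
  have hxu : Xx L (al * z) - bl / 2 ≠ 0 := by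
    intro h3
    have h4 : ℘[L] (al * z) = ℘[L] (t2 Ω) := by
      have h5 := Xx_t2 h
      unfold Xx at h3 h5
      linear_combination h3 - h5
    rcases (wp_eq_iff L hu.ne (t2_notMem hL)).1 h4 with h5 | h5
    · exact tb_add h hv hu (al2_t2 hL) h5
    · exact tb_sub h hv hu (al2_t2 hL) h5
  set x := Xx L z with hx
  set xu := Xx L (al * z) with hxud
  set den := x ^ 2 - al * x + P0 with hden
  set q := (al * x ^ 2 - bl ^ 2 * x + al ^ 2) / (al ^ 2 * x - bl) ^ 2 with hq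
  have c1 : v (1 : ℂ) ≤ 1 := by rw [map_one]
  have hbl1 : Cg v (bl ^ 2) 1 := by
    refine cg_of (c := -al - 2) ?_ (v_sub_lt (by rwa [Valuation.map_neg]) (v_two_lt hv))
    unfold bl
    linear_combination al_sq
  have hq1 : Cg v q (x / 1) := by
    rw [hq]
    refine Cg.div ?_ ?_ i1 (map_one v)
    · refine cg_of (c := al * (x ^ 2 + al + x)) ?_ (v_lt_mul hv ?_)
      · unfold bl
        linear_combination (-x) * al_sq
      · exact v_add_le (v_add_le (v_pow_le i1 2) hv.le) i1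
    · have h1 : Cg v (al ^ 2 * x - bl) (-1) := by
        refine cg_of (c := al * (al * x + 1)) ?_ (v_lt_mul hv (v_add_le (v_mul_le hv.le i1) c1))
        unfold bl
        ring
      have := h1.pow (by rw [Valuation.map_neg, map_one]) 2
      simpa using this
  have hr1 : Cg v (bl ^ 2 / (2 * xu - bl) ^ 2) (1 / 1) := by
    refine Cg.div hbl1 ?_ c1 (map_one v)
    have h1 : Cg v (2 * xu - bl) (-1) := by
      refine cg_of (c := 2 * xu + al) (by unfold bl; ring) ?_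
      exact v_add_lt' (v_lt_mul (v_two_lt hv) iu) hv
    have := h1.pow (by rw [Valuation.map_neg, map_one]) 2
    simpa using this
  have hB : Cg v (q * (den / P0) * (bl ^ 2 / (2 * xu - bl) ^ 2)) (x / 1 * 1 * (1 / 1)) := by
    refine Cg.mul (Cg.mul hq1 (cg_den h hv hz) (by rwa [div_one]) c1) hr1 ?_ (by rwa [div_one])
    rwa [div_one, mul_one]
  rw [div_one, div_one, mul_one, mul_one] at hB
  refine Cg.trans ?_ hB
  refine cg_sq hv ?_ (hB.le i1)
  set D := Xx L (al * z + t2 Ω) - Xx L (al * z - t2 Ω) with hD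
  have hH : G8 Ω z = ℘'[L] z * dl L Ω / den := by
    rw [eq_div_iff g2]
    exact g1
  have hG : Gm8 Ω z = 4 * D * den / (bl ^ 2 * ℘'[L] z * dl L Ω) := by
    rw [eq_div_iff (mul_ne_zero (mul_ne_zero (pow_ne_zero _ hbl) hp') hd0), ← g3, hH]
    field_simp
  have hD2 : D ^ 2 = ℘'[L] (al * z) ^ 2 * ℘'[L] (t2 Ω) ^ 2 / (xu - bl / 2) ^ 4 := by
    rw [eq_div_iff (pow_ne_zero _ hxu)]
    exact g4
  have hpu : ℘'[L] (al * z) = ℘'[L] z * q := by
    rw [hq, ← mul_div_assoc, eq_div_iff (pow_ne_zero _ g6)]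
    exact g5
  have hxu2 : 2 * xu - bl ≠ 0 := by
    intro h3
    apply hxu
    linear_combination (1 / 2 : ℂ) * h3
  have e1 : (xu - bl / 2) ^ 4 = (2 * xu - bl) ^ 4 / 16 := by ring
  rw [hpu, e1] at hD2
  rw [div_pow, hG, div_pow, mul_pow (4 * D), mul_pow 4 D, hD2]
  unfold taum
  generalize ℘'[L] z = p' at *
  generalize ℘'[L] (t2 Ω) = pt at *
  generalize dl L Ω = dd at *
  generalize 2 * xu - bl = w at *
  clear_value q den
  field_simp
  ring

end Pool.Agent.L0h1.EV
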