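import Pool.Agent.L0h1.EV.Df
import Pool.Agent.L0h4.TW.Bgv

/-!
# Project EV: the weighted sums of the function `X` without a character at the prime above two
-/

set_option autoImplicit false
set_option maxHeartbeats 4000000
set_option linter.unusedSectionVars false

open Filter
open scoped Topology PeriodPair

namespace Pool.Agent.L0h1.EV

open Pool.Agent.Y698 Pool.Agent.Y698.SG Pool.Agent.L0h4.TW Pool.Agent.L0h23.ED
open H667R3 Pool.Agent.W192.HK Pool.Agent.TH936.CM Pool.Agent.TH936.PU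

variable {L : PeriodPair} {Ω : ℂ} {Γ : Type} [LinearOrderedCommGroupWithZero Γ]
  {v : Valuation ℂ Γ}

lemma aR_ne0 : aR ≠ 0 := by
  intro h
  apply al_ne
  rw [← aR_coe, h]
  rfl

/-- the two classes modulo `aR` -/
lemma cls_aR (q : RR ⧸ sp aR) : q = 0 ∨ q = 1 := by
  obtain ⟨r, rfl⟩ := Ideal.Quotient.mk_surjective q
  by_cases h : aR ∣ r
  · left
    rw [Ideal.Quotient.eq_zero_iff_mem, Ideal.mem_span_singleton]
    exact h
  · right
    rw [← map_one (Ideal.Quotient.mk (sp aR)), Ideal.Quotient.mk_eq_mk_iff_sub_mem,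
      Ideal.mem_span_singleton]
    have h2 : ∀ m : ℤ, ∃ w : RR, (m : RR) = aR * w ∨ (m : RR) = 1 + aR * w := by
      intro m
      rcases Int.even_or_odd' m with ⟨k, hk | hk⟩
      · refine ⟨bR * k, Or.inl ?_⟩
        rw [hk, ← mul_assoc, aR_mul_bR]
        push_cast
        ring
      · refine ⟨bR * k, Or.inr ?_⟩
        rw [hk, ← mul_assoc, aR_mul_bR]
        push_cast
        ring
    have h3 : r = (cX r : RR) + (cY r : RR) * aR := by
      apply Subtype.ext
      push_cast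
      rw [aR_coe]
      exact co r
    obtain ⟨w, hw | hw⟩ := h2 (cX r)
    · exfalso
      apply h
      rw [h3, hw]
      exact ⟨w + (cY r : RR), by ring⟩
    · exact ⟨w + (cY r : RR), by linear_combination h3 + hw⟩

/-- the distribution relation for `α` -/
lemma Ev_al (hL : IsLat L RR Ω) {z : ℂ} (hz : Tor L z) :
    Ev Ω z + Ev Ω (z + tA Ω) = al * Ev Ω (al * z) := by
  classical
  have f1 := fin_quot aR_ne0
  let _ : Fintype (RR ⧸ sp aR) := Fintype.ofFinite _
  have hd := Ev_dist hL aR_ne0 hz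
  rw [aR_coe] at hd
  have h01 : (0 : RR ⧸ sp aR) ≠ 1 := by
    intro h
    have h3 : (1 : RR) ∈ sp aR := by
      rw [← Ideal.Quotient.eq_zero_iff_mem, map_one]
      exact h.symm
    exact not_dvd_one aR_nu h3
  have huniv : (Finset.univ : Finset (RR ⧸ sp aR)) = {0, 1} := by
    ext q
    simp only [Finset.mem_univ, Finset.mem_insert, Finset.mem_singleton, true_iff]
    exact cls_aR q
  rw [huniv, Finset.sum_insert (by rwa [Finset.mem_singleton]), Finset.sum_singleton] at hd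
  have e0 : Ev Ω (z + Ω * (Quotient.out (0 : RR ⧸ sp aR)) / al) = Ev Ω z := Ev_per hL (by
    have h3 : (Quotient.out (0 : RR ⧸ sp aR)) ∈ sp aR := by
      rw [← Ideal.Quotient.eq_zero_iff_mem, Ideal.Quotient.mk_out]
    have h4 := (div_mem_iff hL aR_ne0 _).2 h3
    rw [aR_coe] at h4
    convert h4 using 1
    ring)
  have e1 : Ev Ω (z + Ω * (Quotient.out (1 : RR ⧸ sp aR)) / al) = Ev Ω (z + tA Ω) := Ev_per hL (by
    have h3 : (Quotient.out (1 : RR ⧸ sp aR)) - 1 ∈ sp aR := by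
      rw [← Ideal.Quotient.mk_eq_mk_iff_sub_mem, Ideal.Quotient.mk_out, map_one]
    have h4 := (div_mem_iff hL aR_ne0 _).2 h3
    rw [aR_coe] at h4
    convert h4 using 1
    unfold tA
    push_cast
    ring)
  rw [e0, e1] at hd
  exact hd

lemma XE_al (hL : IsLat L RR Ω) {z : ℂ} (hz : Tor L z) :
    XE Ω z = Ev Ω z - Ev Ω (al * z) / bl := by
  have h1 := Ev_al hL hz
  have h2 := al_mul_bl
  have hbl := bl_ne
  unfold XE
  rw [eq_sub_iff_add_eq, div_add_div _ _ two_ne_zero hbl, div_eq_iff (mul_ne_zero two_ne_zero hbl)]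
  linear_combination -bl * h1 - Ev Ω (al * z) * h2

/-- the sum over the multiples by `α` -/
lemma sum_al {n : RR} (hL : IsLat L RR Ω) (hn0 : n ≠ 0) (hc : IsCoprime aR n) {φ : RR → ℂ}
    (hφ : Pe n φ) {κ : ℂ} (hκ2 : κ * κ = 1) (hκ : ∀ x, φ (aR * x) = κ * φ x)
    [Fintype (RR ⧸ sp n)] :
    ∑ x : RR ⧸ sp n, φ x.out * Ev Ω (al * (Ω * x.out / (n : ℂ))) = κ * Bv Ω n φ := by
  have hg : Function.Bijective (fun t : RR ⧸ sp n => Ideal.Quotient.mk (sp n) (aR * t.out)) := by
    have hu : IsUnit (Ideal.Quotient.mk (sp n) aR) := by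
      obtain ⟨s, t, hst⟩ := hc
      refine IsUnit.of_mul_eq_one (Ideal.Quotient.mk (sp n) s) ?_
      rw [← map_mul, ← map_one (Ideal.Quotient.mk (sp n)), Ideal.Quotient.mk_eq_mk_iff_sub_mem,
        Ideal.mem_span_singleton']
      exact ⟨-t, by linear_combination -hst⟩
    obtain ⟨u, hu⟩ := hu
    have e1 : (fun t : RR ⧸ sp n => Ideal.Quotient.mk (sp n) (aR * t.out)) =
        fun t => ((Units.mulLeft u) t) := by
      funext t
      rw [map_mul, Ideal.Quotient.mk_out, Units.mulLeft_apply, hu]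
    rw [e1]
    exact (Units.mulLeft u).bijective
  rw [Bv_eq, sum_rep _ hg (fun r : RR => φ r * Ev Ω (Ω * r / (n : ℂ)))
    (fun x y h => Bv_term hL hn0 hφ h), Finset.mul_sum]
  refine Finset.sum_congr rfl fun x _ => ?_
  have e : Ω * ((aR * x.out : RR) : ℂ) / (n : ℂ) = al * (Ω * x.out / (n : ℂ)) := by
    push_cast
    rw [aR_coe]
    ring
  rw [e, hκ]
  linear_combination (-(φ x.out * Ev Ω (al * (Ω * x.out / (n : ℂ))))) * hκ2

/-- the weighted sum of `X` -/
theorem sv_XE {n : RR} (hL : IsLat L RR Ω) (hn0 : n ≠ 0) (hc : IsCoprime aR n) {φ : RR → ℂ}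
    (hφ : Pe n φ) {κ : ℂ} (hκ2 : κ * κ = 1) (hκ : ∀ x, φ (aR * x) = κ * φ x) :
    Sv (XE Ω) Ω n φ = (1 - κ / bl) * Bv Ω n φ := by
  have f1 := fin_quot hn0
  let _ : Fintype (RR ⧸ sp n) := Fintype.ofFinite _
  have h1 := sum_al hL hn0 hc hφ hκ2 hκ
  unfold Sv
  rw [finsum_eq_sum_of_fintype]
  have e : ∀ x : RR ⧸ sp n, φ x.out * XE Ω (Ω * x.out / (n : ℂ)) =
      φ x.out * Ev Ω (Ω * x.out / (n : ℂ)) -
        (1 / bl) * (φ x.out * Ev Ω (al * (Ω * x.out / (n : ℂ)))) := by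
    intro x
    rw [XE_al hL (Tor.of hL hn0 x.out)]
    ring
  rw [Finset.sum_congr rfl (fun x _ => e x), Finset.sum_sub_distrib, ← Finset.mul_sum, h1, ← Bv_eq]
  ring

lemma rd_kap (hv : v al < 1) {κ : ℂ} (hκ : κ = 1 ∨ κ = -1) :
    Rd v ((1 - κ / bl) / 2) (1 + lg κ) := by
  have hbl := bl_ne
  have hab := al_mul_bl
  have vb := v_bl hv
  have hb1 : Cg v bl 1 := cg_of (c := -al) (by unfold bl; ring) (by rwa [Valuation.map_neg])
  rcases hκ with rfl | rfl
  · rw [lg_one, add_zero, Rd.one_iff]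
    have e : (1 - 1 / bl) / 2 = -1 / bl ^ 2 := by
      rw [div_eq_div_iff two_ne_zero (pow_ne_zero _ hbl)]
      field_simp
      unfold bl at hab ⊢
      linear_combination -hab
    rw [e]
    have h1 : Cg v (-1 / bl ^ 2) ((1 : ℂ) / 1 ^ 2) := by
      refine Cg.div ?_ (hb1.pow (by rw [map_one]) 2) (by rw [map_one]) (by rw [one_pow, map_one])
      exact ((Cg.refl 1).neg_right hv (by rw [map_one])).symm
    rw [one_pow, div_one] at h1
    exact h1
  · rw [lg_neg_one, show (1 : ZMod 2) + 1 = 0 from rfl, Rd.zero_iff]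
    have e : (1 - -1 / bl) / 2 = -al / bl ^ 2 := by
      rw [div_eq_div_iff two_ne_zero (pow_ne_zero _ hbl)]
      field_simp
      unfold bl at hab ⊢
      linear_combination -hab
    rw [e, map_div₀, Valuation.map_neg, map_pow, vb, one_pow, div_one]
    exact hv

/-- **the sums of `X`** -/
theorem ga_XE {ι : Type} [DecidableEq ι] (h : LD L Ω) (hv : v al < 1) {S0 : Finset ι}
    {π : ι → RR} (hS0 : FX S0 π) (hrec : RecX S0 π) {l : ι → ZMod 2}
    (hl : ∀ i ∈ S0, lg (sy (π i) aR) = l i + nt (π i))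
    {n : ι → ZMod 2} (hn : ∀ i ∈ S0, n i = nt (π i)) {m : ι → ι → ZMod 2}
    (hm : ∀ i ∈ S0, ∀ j ∈ S0, i ≠ j → m i j = mm π i j) (A : Finset ι) (hA : A ⊆ S0)
    (hne : A.Nonempty) :
    Rd v (Ga (XE Ω) Ω π A / 2 ^ A.card) ((1 + ∑ j ∈ A, (l j + n j)) * gd n m A) := by
  have hL := h.lat
  have hS := hS0.mono hA
  have h1 := indX h hv hS0 hrec A hA hne
  have hgd : gd (fun i => nt (π i)) (mm π) A = gd n m A := by
    unfold gd
    congr 1
    ext i j
    simp only [Matrix.of_apply]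
    by_cases hij : i = j
    · rw [if_pos hij, if_pos hij, hn i (hA i.2)]
      congr 1
      refine Finset.sum_congr rfl fun k hk => ?_
      rw [hm i (hA i.2) k (hA (Finset.mem_of_mem_erase hk)) (Finset.ne_of_mem_erase hk).symm]
    · rw [if_neg hij, if_neg hij, hm i (hA i.2) j (hA j.2) (fun h => hij (Subtype.ext h))]
  rw [hgd] at h1
  have hco : IsCoprime aR (∏ i ∈ A, π i) := by
    refine IsCoprime.prod_right fun i hi => ?_
    have h2 := (hS.pd i hi).odd
    rw [← aR_mul_bR] at h2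
    exact h2.of_mul_left_left
  set κ : ℂ := ∏ i ∈ A, sy (π i) aR with hκd
  have hsg : ∀ i ∈ A, sy (π i) aR = 1 ∨ sy (π i) aR = -1 := by
    intro i hi
    refine sy_sgn fun h3 => ?_
    have h2 : IsCoprime aR (π i) := by
      have h4 := (hS.pd i hi).odd
      rw [← aR_mul_bR] at h4
      exact h4.of_mul_left_left
    rw [Ideal.mem_span_singleton] at h3
    exact (hS.pd i hi).pr.not_isUnit (h2.isUnit_of_dvd' h3 dvd_rfl)
  have hp := sgn_prod (s := A) (f := fun i => sy (π i) aR) hsg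
  have hκ1 : κ = 1 ∨ κ = -1 := hp.1
  have hκ2 : κ * κ = 1 := by rcases hκ1 with h | h <;> rw [h] <;> norm_num
  have hlg : lg κ = ∑ j ∈ A, (l j + n j) := by
    rw [hκd, hp.2]
    refine Finset.sum_congr rfl fun i hi => ?_
    rw [hl i (hA hi), hn i (hA hi)]
  have hsv := sv_XE hL (prod_ne hS) hco (φ := fun m => ∏ i ∈ A, sy (π i) m)
    (Pe.prod fun p _ => sy_per (π p)) hκ2 (fun x => by
      rw [hκd, ← Finset.prod_mul_distrib]
      exact Finset.prod_congr rfl fun i hi => (hS.pd i hi).mul _ _)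
  have e : Ga (XE Ω) Ω π A / 2 ^ A.card = ((1 - κ / bl) / 2) *
      (2 * Bv Ω (∏ i ∈ A, π i) (fun m => ∏ i ∈ A, sy (π i) m) / 2 ^ A.card) := by
    unfold Ga
    rw [hsv]
    ring
  rw [e, ← hlg]
  exact (rd_kap hv hκ1).mul h1

end Pool.Agent.L0h1.EV
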